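import Pool.Agent.N596.KC.Few
import Pool.Agent.N621.SP.Asym
import Pool.Agent.H818R2.KissDefs

/-! Exponents of spherical codes with small clusters (for MP_b5f63d_co). -/

open MeasureTheory Metric Filter Set
open scoped Topology InnerProductSpace
open Pool.Agent.H818R2

namespace Pool.Agent.N596.KC

/-- The upper bound in high dimensions, for a fixed parameter `m`. -/
theorem upper_m {s0 b : ℝ} {m : ℕ} (hs0 : 0 ≤ s0) (hs1 : s0 < 1) (hb0 : 0 < b)
    (hb : 1 < b ^ 2 * ((1 - s0) * (m / (m + 1)))) :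
    ∃ n₀ : ℕ, ∀ n ≥ n₀, ∀ (C : Finset (EuclideanSpace ℝ (Fin n))) (K : ℕ),
      (∀ x ∈ C, ‖x‖ = 1) → Clu C s0 K → (C.card : ℝ) ≤ 2 * (K + m).choose m * b ^ n := by
  set s : ℝ := b⁻¹ with hs
  have hsp : 0 < s := inv_pos.2 hb0
  have hs2 : s ^ 2 < (1 - s0) * (m / (m + 1)) := by
    rw [hs, inv_pow, inv_lt_iff_one_lt_mul₀ (by positivity)]
    linarith
  have hm0 : (0 : ℝ) ≤ m := Nat.cast_nonneg m
  have hid : 1 - (s0 + (1 - s0) / ((m : ℝ) + 1)) = (1 - s0) * (m / (m + 1)) := by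
    field_simp
    ring
  set g : ℝ := (1 - s0) * (m / (m + 1)) - s ^ 2 with hg
  have hg0 : 0 < g := by rw [hg]; linarith
  have hnn : 0 ≤ s0 + (1 - s0) / ((m : ℝ) + 1) := by
    have : 0 ≤ (1 - s0) / ((m : ℝ) + 1) := div_nonneg (by linarith) (by positivity)
    linarith
  set q : ℝ := √(s0 + (1 - s0) / ((m : ℝ) + 1)) with hq
  have hq2 : q ^ 2 = s0 + (1 - s0) / ((m : ℝ) + 1) := Real.sq_sqrt hnn
  set ε : ℝ := min (g / 14) (s / 2) with hε
  have hε0 : 0 < ε := by positivity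
  have hε1 : ε ≤ g / 14 := min_le_left _ _
  have hε2 : ε ≤ s / 2 := min_le_right _ _
  set r : ℝ := √(s ^ 2 - ε ^ 2) with hr
  have hr0 : 0 < r := Real.sqrt_pos.2 (by nlinarith)
  have hrs : r < s := by
    rw [hr, Real.sqrt_lt' hsp]
    nlinarith
  have hlim : Tendsto (fun n : ℕ => (r / s) ^ n) atTop (𝓝 0) :=
    tendsto_pow_atTop_nhds_zero_of_lt_one (by positivity) ((div_lt_one hsp).2 hrs)
  obtain ⟨n₀, hn₀⟩ := eventually_atTop.1 (hlim.eventually (gt_mem_nhds (show (0 : ℝ) < 1 / 4 by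
    norm_num)))
  refine ⟨n₀, fun n hn C K hC hK => ?_⟩
  have h1 := hn₀ n hn
  have h2 : 4 * r ^ n ≤ s ^ n := by
    rw [div_pow, div_lt_iff₀ (by positivity)] at h1
    linarith
  have h3 := card_le_of_cap (E := EuclideanSpace ℝ (Fin n)) (m := m) (q := q) hC hs1.le hK
    (Real.sqrt_nonneg _) (by rw [hq2]) hsp hε0 (by linarith : ε < s)
    (by rw [hq2]; linarith) (by rw [finrank_euclideanSpace_fin]; exact h2)
  rw [finrank_euclideanSpace_fin] at h3
  have h4 : s ^ n * b ^ n = 1 := by rw [hs, inv_pow, inv_mul_cancel₀ (by positivity)]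
  calc (C.card : ℝ) = C.card * s ^ n * b ^ n := by rw [mul_assoc, h4, mul_one]
    _ ≤ 2 * (K + m).choose m * b ^ n := mul_le_mul_of_nonneg_right h3 (by positivity)

/-- The quantitative form: large sets have large clusters. -/
theorem cluster_m {s0 κ c : ℝ} {m : ℕ} (hs0 : 0 ≤ s0) (hs1 : s0 < 1) (hκ : 0 ≤ κ) (hm : 1 ≤ m)
    (h : m * κ + 1 / 2 * Real.logb 2 ((m + 1) / (m * (1 - s0))) < c) :
    ∀ᶠ n : ℕ in atTop, ∀ C : Finset (EuclideanSpace ℝ (Fin n)), (∀ x ∈ C, ‖x‖ = 1) →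
      (2 : ℝ) ^ (c * n) ≤ C.card →
      ∃ Q ⊆ C, (∀ x ∈ Q, ∀ y ∈ Q, x ≠ y → s0 < ⟪x, y⟫_ℝ) ∧ (2 : ℝ) ^ (κ * n) ≤ Q.card := by
  have hm0 : (0 : ℝ) < m := by exact_mod_cast hm
  have h1s : 0 < 1 - s0 := by linarith
  set L : ℝ := Real.logb 2 ((m + 1) / (m * (1 - s0))) with hL
  set γ : ℝ := (c - (m * κ + 1 / 2 * L)) / 2 with hγ
  have hγ0 : 0 < γ := by rw [hγ]; linarith
  set b : ℝ := (2 : ℝ) ^ (1 / 2 * L + γ) with hb
  have hb0 : 0 < b := by positivity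
  have hb2 : b ^ 2 = ((m + 1) / (m * (1 - s0))) * (2 : ℝ) ^ (2 * γ) := by
    rw [hb, ← Real.rpow_natCast, ← Real.rpow_mul (by norm_num)]
    have : (1 / 2 * L + γ) * ((2 : ℕ) : ℝ) = L + 2 * γ := by push_cast; ring
    rw [this, Real.rpow_add (by norm_num), hL, Real.rpow_logb (by norm_num) (by norm_num)
      (by positivity)]
  have hbig : 1 < b ^ 2 * ((1 - s0) * (m / (m + 1))) := by
    rw [hb2]
    have : ((m : ℝ) + 1) / (m * (1 - s0)) * (2 : ℝ) ^ (2 * γ) * ((1 - s0) * (m / (m + 1))) =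
        (2 : ℝ) ^ (2 * γ) := by field_simp
    rw [this]
    exact Real.one_lt_rpow (by norm_num) (by positivity)
  obtain ⟨n₀, hn₀⟩ := upper_m hs0 hs1 hb0 hbig
  have hlarge : ∀ᶠ n : ℕ in atTop, 2 * ((1 : ℝ) + m) ^ m < (2 : ℝ) ^ (γ * n) := by
    have h1 : Tendsto (fun n : ℕ => ((2 : ℝ) ^ γ) ^ n) atTop atTop :=
      tendsto_pow_atTop_atTop_of_one_lt (Real.one_lt_rpow (by norm_num) (by positivity))
    filter_upwards [h1.eventually (eventually_gt_atTop _)] with n hn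
    rw [Real.rpow_mul (by norm_num), Real.rpow_natCast]
    exact hn
  filter_upwards [hlarge, eventually_ge_atTop n₀] with n hn hnn C hC hd
  by_contra hcon
  push Not at hcon
  have ht : (1 : ℝ) ≤ (2 : ℝ) ^ (κ * n) := Real.one_le_rpow (by norm_num) (by positivity)
  have hcl : Clu C s0 ⌊(2 : ℝ) ^ (κ * n)⌋₊ := fun Q hQ hQd =>
    Nat.le_floor (hcon Q hQ hQd).le
  have h1 := hn₀ n hnn C _ hC hcl
  have h2 := Pool.Agent.N621.SP.choose_le_mul_pow (m := m)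
    (Nat.floor_le (by positivity : (0 : ℝ) ≤ (2 : ℝ) ^ (κ * n))) ht
  have h4 : ((1 + (m : ℝ)) * (2 : ℝ) ^ (κ * n)) ^ m = (1 + (m : ℝ)) ^ m * (2 : ℝ) ^ (m * κ * n) := by
    rw [mul_pow, ← Real.rpow_natCast ((2 : ℝ) ^ (κ * n)) m, ← Real.rpow_mul (by norm_num)]
    congr 2; ring
  have h3 : b ^ n = (2 : ℝ) ^ ((1 / 2 * L + γ) * n) := by
    rw [Real.rpow_mul (by norm_num), Real.rpow_natCast]
  rw [h4] at h2
  have h5 : (C.card : ℝ) < (2 : ℝ) ^ (c * n) := by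
    calc (C.card : ℝ) ≤ 2 * (⌊(2 : ℝ) ^ (κ * n)⌋₊ + m).choose m * b ^ n := h1
      _ ≤ 2 * ((1 + (m : ℝ)) ^ m * (2 : ℝ) ^ (m * κ * n)) * b ^ n := by
          apply mul_le_mul_of_nonneg_right _ (by positivity)
          exact mul_le_mul_of_nonneg_left h2 (by norm_num)
      _ = (2 * (1 + (m : ℝ)) ^ m) * ((2 : ℝ) ^ (m * κ * n) * (2 : ℝ) ^ ((1 / 2 * L + γ) * n)) := by
          rw [h3]; ring
      _ < (2 : ℝ) ^ (γ * n) * ((2 : ℝ) ^ (m * κ * n) * (2 : ℝ) ^ ((1 / 2 * L + γ) * n)) :=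
          mul_lt_mul_of_pos_right hn (by positivity)
      _ = (2 : ℝ) ^ (c * n) := by
          rw [← Real.rpow_add (by norm_num), ← Real.rpow_add (by norm_num)]
          congr 1
          have : c = 2 * γ + (m * κ + 1 / 2 * L) := by rw [hγ]; ring
          rw [this]; ring
  linarith

lemma tendsto_L {s0 : ℝ} (hs1 : s0 < 1) :
    Tendsto (fun m : ℕ => 1 / 2 * Real.logb 2 (((m : ℝ) + 1) / (m * (1 - s0)))) atTop
      (𝓝 (-(1 / 2) * Real.logb 2 (1 - s0))) := by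
  have h1s : 0 < 1 - s0 := by linarith
  have h1 : Tendsto (fun m : ℕ => (1 + 1 / (m : ℝ)) * (1 / (1 - s0))) atTop
      (𝓝 ((1 + 0) * (1 / (1 - s0)))) :=
    (tendsto_const_nhds.add tendsto_one_div_atTop_nhds_zero_nat).mul_const _
  rw [add_zero, one_mul] at h1
  have h2 : Tendsto (fun m : ℕ => Real.logb 2 ((1 + 1 / (m : ℝ)) * (1 / (1 - s0)))) atTop
      (𝓝 (Real.logb 2 (1 / (1 - s0)))) :=
    ((Real.continuousAt_logb (by positivity)).tendsto).comp h1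
  have h3 := h2.const_mul (1 / 2)
  have h4 : 1 / 2 * Real.logb 2 (1 / (1 - s0)) = -(1 / 2) * Real.logb 2 (1 - s0) := by
    rw [one_div (1 - s0), Real.logb_inv]; ring
  rw [h4] at h3
  refine h3.congr' ?_
  filter_upwards [eventually_ge_atTop 1] with m hm
  have hm0 : (0 : ℝ) < m := by exact_mod_cast hm
  congr 2
  field_simp

/-- the inner products above `s0` -/
def ipsAbove {n : ℕ} (C : Finset (EuclideanSpace ℝ (Fin n))) (s0 : ℝ) : Set ℝ :=
  {d | s0 < d ∧ ∃ x ∈ C, ∃ y ∈ C, x ≠ y ∧ ⟪x, y⟫_ℝ = d}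

theorem cluster_of_ips {n : ℕ} {C : Finset (EuclideanSpace ℝ (Fin n))} (hC : ∀ x ∈ C, ‖x‖ = 1)
    {s0 : ℝ} {s : ℕ} (h : (ipsAbove C s0).encard ≤ s) : Clu C s0 ((n + s).choose s) := by
  have hd : ∀ x ∈ C, ∀ y ∈ C, dist x y ^ 2 = 2 - 2 * ⟪x, y⟫_ℝ := by
    intro x hx y hy
    rw [dist_eq_norm, norm_sub_sq_real, hC x hx, hC y hy]; ring
  have hsub : Pool.Agent.N621.SP.shortDist (C : Set (EuclideanSpace ℝ (Fin n))) √(2 - 2 * s0) ⊆
      (fun d => √(2 - 2 * d)) '' ipsAbove C s0 := by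
    rintro d ⟨hd0, hdD, x, hx, y, hy, hxy⟩
    have h1 := hd x hx y hy
    rw [hxy] at h1
    have hne : x ≠ y := by
      rintro rfl
      rw [dist_self] at hxy
      exact hd0.ne hxy
    refine ⟨⟪x, y⟫_ℝ, ⟨?_, x, hx, y, hy, hne, rfl⟩, ?_⟩
    · rw [Real.lt_sqrt hd0.le] at hdD
      linarith
    · simp only
      rw [← h1, Real.sqrt_sq hd0.le]
  have h2 : (Pool.Agent.N621.SP.shortDist (C : Set (EuclideanSpace ℝ (Fin n)))
      √(2 - 2 * s0)).encard ≤ s :=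
    (Set.encard_le_encard hsub).trans ((Set.encard_image_le _ _).trans h)
  have h3 := Pool.Agent.N621.SP.cluster_of_dist h2
  intro Q hQ hQd
  apply h3 Q (Finset.coe_subset.2 hQ)
  intro x hx y hy hxy
  rw [Real.lt_sqrt dist_nonneg, hd x (hQ hx) y (hQ hy)]
  linarith [hQd x hx y hy hxy]

/-- The conclusion about clusters and inner products. -/
def Rich {n : ℕ} (C : Finset (EuclideanSpace ℝ (Fin n))) (s0 η : ℝ) : Prop :=
  (∃ Q ⊆ C, (∀ x ∈ Q, ∀ y ∈ Q, x ≠ y → s0 < ⟪x, y⟫_ℝ) ∧ (2 : ℝ) ^ (η * n) ≤ Q.card) ∧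
    ∀ s : ℕ, (ipsAbove C s0).encard ≤ s → η * n < s

theorem threshold {s0 c : ℝ} (hs0 : 0 ≤ s0) (hs1 : s0 < 1)
    (h : -(1 / 2) * Real.logb 2 (1 - s0) < c) :
    ∃ η : ℝ, 0 < η ∧ ∀ᶠ n : ℕ in atTop, ∀ C : Finset (EuclideanSpace ℝ (Fin n)),
      (∀ x ∈ C, ‖x‖ = 1) → (2 : ℝ) ^ ((c - η) * n) ≤ C.card → Rich C s0 η := by
  obtain ⟨m, hmc, hm⟩ := (((tendsto_L hs1).eventually (gt_mem_nhds h)).and
    (eventually_ge_atTop 1)).exists
  have hm0 : (0 : ℝ) < m := by exact_mod_cast hm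
  set L : ℝ := 1 / 2 * Real.logb 2 (((m : ℝ) + 1) / (m * (1 - s0))) with hL
  set η₁ : ℝ := (c - L) / (2 * (m + 1)) with hη₁
  have hη₁0 : 0 < η₁ := by
    have : 0 < c - L := by linarith
    positivity
  have hη₁m : η₁ * (m + 1) = (c - L) / 2 := by rw [hη₁]; field_simp
  have h1 := cluster_m (κ := η₁) (c := c - η₁) (m := m) hs0 hs1 hη₁0.le hm (by
    rw [← hL]; nlinarith)
  obtain ⟨σ, hσ, h2⟩ := Pool.Agent.N621.SP.choose_small hη₁0
  refine ⟨min η₁ σ, lt_min hη₁0 hσ, ?_⟩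
  filter_upwards [h1, eventually_ge_atTop 1] with n hn hn1 C hC hd
  have hn0 : (0 : ℝ) ≤ n := Nat.cast_nonneg n
  obtain ⟨Q, hQC, hQd, hQ⟩ := hn C hC (by
    refine le_trans ?_ hd
    apply Real.rpow_le_rpow_of_exponent_le (by norm_num)
    apply mul_le_mul_of_nonneg_right _ hn0
    linarith [min_le_left η₁ σ])
  refine ⟨⟨Q, hQC, hQd, le_trans ?_ hQ⟩, ?_⟩
  · apply Real.rpow_le_rpow_of_exponent_le (by norm_num)
    exact mul_le_mul_of_nonneg_right (min_le_left _ _) hn0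
  · intro s hs
    by_contra hcon
    push Not at hcon
    have h3 : (s : ℝ) ≤ σ * n :=
      hcon.trans (mul_le_mul_of_nonneg_right (min_le_right _ _) hn0)
    have h4 := cluster_of_ips hC hs Q hQC hQd
    have h5 : (Q.card : ℝ) ≤ ((n + s).choose s : ℝ) := by exact_mod_cast h4
    linarith [h2 n hn1 s h3]

lemma sin_half_pos {θ : ℝ} (h0 : 0 < θ) (h1 : θ ≤ Real.pi / 2) : 0 < Real.sin (θ / 2) :=
  Real.sin_pos_of_pos_of_lt_pi (by linarith) (by linarith [Real.pi_pos])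

/-- codes whose size is close to the maximum, if the maximum is exponentially large enough -/
lemma near_opt_aux {θ s0 c : ℝ} (hs0 : 0 ≤ s0) (hs1 : s0 < 1)
    (h : -(1 / 2) * Real.logb 2 (1 - s0) < c)
    (hc : ∀ᶠ n : ℕ in atTop, (2 : ℝ) ^ (c * n) ≤ sphMax n θ) :
    ∃ η : ℝ, 0 < η ∧ ∀ᶠ n : ℕ in atTop, ∀ P : Finset (EuclideanSpace ℝ (Fin n)),
      IsSphCode n θ P → (2 : ℝ) ^ (-η * n) * sphMax n θ ≤ P.card → Rich P s0 η := by
  obtain ⟨η, hη, h1⟩ := threshold hs0 hs1 h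
  refine ⟨η, hη, ?_⟩
  filter_upwards [h1, hc] with n hn hnc P hP hd
  apply hn P hP.1
  refine le_trans ?_ hd
  calc (2 : ℝ) ^ ((c - η) * n) = (2 : ℝ) ^ (-η * n) * (2 : ℝ) ^ (c * n) := by
        rw [← Real.rpow_add (by norm_num)]; congr 1; ring
    _ ≤ _ := mul_le_mul_of_nonneg_left hnc (by positivity)

theorem near_optimal_liminf {θ s0 : ℝ} (hs0 : 0 ≤ s0) (hs1 : s0 < 1)
    (h : -(1 / 2) * Real.logb 2 (1 - s0) < liminf (codeRate θ) atTop) :
    ∃ η : ℝ, 0 < η ∧ ∀ᶠ n : ℕ in atTop, ∀ P : Finset (EuclideanSpace ℝ (Fin n)),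
      IsSphCode n θ P → (2 : ℝ) ^ (-η * n) * sphMax n θ ≤ P.card → Rich P s0 η := by
  obtain ⟨c, hc1, hc2⟩ := exists_between h
  apply near_opt_aux hs0 hs1 hc1
  have hbdd : IsBoundedUnder (· ≥ ·) atTop (codeRate θ) := by
    refine ⟨0, ?_⟩
    rw [eventually_map]
    filter_upwards with n
    simp only [ge_iff_le, codeRate]
    apply div_nonneg _ (Nat.cast_nonneg n)
    rcases Nat.eq_zero_or_pos (sphMax n θ) with h | h
    · rw [h]; simp
    · exact Real.logb_nonneg (by norm_num) (by exact_mod_cast h)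
  have hc0 : 0 < c := by
    refine lt_of_le_of_lt ?_ hc1
    have : Real.logb 2 (1 - s0) ≤ 0 := Real.logb_nonpos (by norm_num) (by linarith) (by linarith)
    linarith
  filter_upwards [eventually_lt_of_lt_liminf hc2 hbdd, eventually_gt_atTop 0] with n hn hn0
  have hn0' : (0 : ℝ) < n := by exact_mod_cast hn0
  unfold codeRate at hn
  rw [lt_div_iff₀ hn0'] at hn
  have hpos : (0 : ℝ) < sphMax n θ := by
    rcases Nat.eq_zero_or_pos (sphMax n θ) with h | h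
    · rw [h] at hn
      simp only [Nat.cast_zero, Real.logb_zero] at hn
      have : 0 < c * n := by positivity
      linarith
    · exact_mod_cast h
  rw [← Real.le_logb_iff_rpow_le (by norm_num) hpos]
  exact hn.le

lemma log_sin {θ : ℝ} (hθ0 : 0 < θ) (hθ1 : θ < Real.pi / 2) :
    -(1 / 2) * Real.logb 2 (1 - Real.cos θ ^ 2) = -Real.logb 2 (Real.sin θ) := by
  have hsin : 0 < Real.sin θ := Real.sin_pos_of_pos_of_lt_pi hθ0 (by linarith [Real.pi_pos])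
  have h1 : 1 - Real.cos θ ^ 2 = Real.sin θ ^ 2 := by
    have := Real.sin_sq_add_cos_sq θ; linarith
  rw [h1, Real.logb_pow]
  push_cast
  ring

lemma pow_le_sphMax {θ c : ℝ} (hθ0 : 0 < θ) (hθ1 : θ < Real.pi / 2)
    (hc : c < -Real.logb 2 (Real.sin θ)) :
    ∀ᶠ n : ℕ in atTop, (2 : ℝ) ^ (c * n) ≤ sphMax n θ := by
  have hsin : 0 < Real.sin θ := Real.sin_pos_of_pos_of_lt_pi hθ0 (by linarith [Real.pi_pos])
  set ε : ℝ := -Real.logb 2 (Real.sin θ) - c with hε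
  have hε0 : 0 < ε := by rw [hε]; linarith
  obtain ⟨C, n₀, h⟩ := exists_few hθ0 hθ1 (Real.one_lt_rpow (by norm_num : (1 : ℝ) < 2) hε0)
  filter_upwards [eventually_ge_atTop n₀, eventually_ge_atTop 1] with n hn hn1
  have : NeZero n := ⟨by omega⟩
  obtain ⟨P, hP, -, hPc⟩ := h n hn
  have h1 : (P.card : ℝ) ≤ sphMax n θ := by
    exact_mod_cast le_sphMax (sin_half_pos hθ0 hθ1.le) hP
  refine le_trans (le_of_eq ?_) (hPc.trans h1)
  rw [Real.rpow_mul (by norm_num), Real.rpow_natCast]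
  congr 1
  have e : c = -(ε + Real.logb 2 (Real.sin θ)) := by rw [hε]; ring
  rw [e, Real.rpow_neg (by norm_num), Real.rpow_add (by norm_num),
    Real.rpow_logb (by norm_num) (by norm_num) hsin, one_div]

/-- Near-optimal codes. -/
theorem near_optimal {θ s0 : ℝ} (hθ0 : 0 < θ) (hθ1 : θ < Real.pi / 2) (hs0 : 0 ≤ s0)
    (hs : s0 < Real.cos θ ^ 2) :
    ∃ η : ℝ, 0 < η ∧ ∀ᶠ n : ℕ in atTop, ∀ P : Finset (EuclideanSpace ℝ (Fin n)),
      IsSphCode n θ P → (2 : ℝ) ^ (-η * n) * sphMax n θ ≤ P.card → Rich P s0 η := by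
  have hsin : 0 < Real.sin θ := Real.sin_pos_of_pos_of_lt_pi hθ0 (by linarith [Real.pi_pos])
  have hs1 : Real.cos θ ^ 2 < 1 := by
    have := Real.sin_sq_add_cos_sq θ
    have : 0 < Real.sin θ ^ 2 := by positivity
    linarith
  have h1 : -(1 / 2) * Real.logb 2 (1 - s0) < -Real.logb 2 (Real.sin θ) := by
    rw [← log_sin hθ0 hθ1]
    have := Real.logb_lt_logb (b := 2) (by norm_num) (show 0 < 1 - Real.cos θ ^ 2 by linarith)
      (show 1 - Real.cos θ ^ 2 < 1 - s0 by linarith)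
    linarith
  obtain ⟨c, hc1, hc2⟩ := exists_between h1
  exact near_opt_aux hs0 (by linarith) hc1 (pow_le_sphMax hθ0 hθ1 hc2)

/-- The largest size of a code of angular distance `≥ θ` with clusters of level `φ` of size `≤ K`. -/
noncomputable def clusterCode (n : ℕ) (θ φ : ℝ) (K : ℕ) : ℕ :=
  sSup {m | ∃ P : Finset (EuclideanSpace ℝ (Fin n)), IsSphCode n θ P ∧ Clu P (Real.cos φ) K ∧
    P.card = m}

lemma clusterCode_bdd {n : ℕ} [NeZero n] {θ φ : ℝ} {K : ℕ} (hθ0 : 0 < θ)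
    (hθ1 : θ ≤ Real.pi / 2) :
    BddAbove {m | ∃ P : Finset (EuclideanSpace ℝ (Fin n)), IsSphCode n θ P ∧
      Clu P (Real.cos φ) K ∧ P.card = m} := by
  obtain ⟨B, hB⟩ := sph_bdd (d := n) (sin_half_pos hθ0 hθ1)
  refine ⟨B, ?_⟩
  rintro m ⟨P, hP, -, rfl⟩
  exact hB ⟨P, hP, rfl⟩

lemma le_clusterCode {n : ℕ} [NeZero n] {θ φ : ℝ} {K : ℕ} (hθ0 : 0 < θ) (hθ1 : θ ≤ Real.pi / 2)
    {P : Finset (EuclideanSpace ℝ (Fin n))} (hP : IsSphCode n θ P)
    (hK : Clu P (Real.cos φ) K) : P.card ≤ clusterCode n θ φ K :=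
  le_csSup (clusterCode_bdd hθ0 hθ1) ⟨P, hP, hK, rfl⟩

lemma clusterCode_mem {n : ℕ} [NeZero n] {θ φ : ℝ} {K : ℕ} (hθ0 : 0 < θ)
    (hθ1 : θ ≤ Real.pi / 2) :
    ∃ P : Finset (EuclideanSpace ℝ (Fin n)), IsSphCode n θ P ∧
      Clu P (Real.cos φ) K ∧ P.card = clusterCode n θ φ K := by
  apply Nat.sSup_mem _ (clusterCode_bdd hθ0 hθ1)
  refine ⟨0, ∅, ⟨by simp, by simp⟩, ?_, by simp⟩
  intro Q hQ _
  rw [Finset.subset_empty.1 hQ]; simp

/-- Bounded clusters. -/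
theorem bounded_clusters {θ φ : ℝ} (hθ0 : 0 < θ) (hθ1 : θ ≤ Real.pi / 2) (hφ0 : 0 < φ)
    (hφ1 : φ ≤ Real.pi / 2) (h : Real.cos φ ≤ Real.cos θ ^ 2) {ε : ℝ} (hε : 0 < ε) :
    ∃ K : ℕ, ∀ᶠ n : ℕ in atTop,
      (2 : ℝ) ^ ((-(1 / 2) * Real.logb 2 (1 - Real.cos φ) - ε) * n) ≤ clusterCode n θ φ K := by
  have hpi := Real.pi_pos
  have hφc : 0 ≤ Real.cos φ := Real.cos_nonneg_of_mem_Icc ⟨by linarith, hφ1⟩
  have hθc : 0 ≤ Real.cos θ := Real.cos_nonneg_of_mem_Icc ⟨by linarith, hθ1⟩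
  rcases hφc.eq_or_lt with h0 | h0
  · -- a single point
    refine ⟨1, ?_⟩
    filter_upwards [eventually_ge_atTop 1] with n hn
    have : NeZero n := ⟨by omega⟩
    rw [← h0, sub_zero, Real.logb_one, mul_zero, zero_sub]
    have h1 : (2 : ℝ) ^ (-ε * n) ≤ 1 := by
      apply Real.rpow_le_one_of_one_le_of_nonpos (by norm_num)
      have : (0 : ℝ) ≤ n := Nat.cast_nonneg n
      nlinarith
    refine h1.trans ?_
    have : Nontrivial (EuclideanSpace ℝ (Fin n)) := Pool.Agent.N621.SP.inst_nontriv n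
    obtain ⟨x, hx⟩ := exists_norm_eq (EuclideanSpace ℝ (Fin n)) (zero_le_one' ℝ)
    have h2 := le_clusterCode (φ := φ) (K := 1) hθ0 hθ1 (P := {x}) ⟨by simpa using hx, by
      intro u hu v hv huv
      simp only [Finset.mem_singleton] at hu hv
      exact absurd (hu.trans hv.symm) huv⟩ (by
      intro Q hQ _
      simpa using Finset.card_le_card hQ)
    rw [Finset.card_singleton] at h2
    exact_mod_cast h2
  · have hθc' : 0 < Real.cos θ := by
      rcases hθc.eq_or_lt with h1 | h1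
      · rw [← h1] at h; norm_num at h; linarith
      · exact h1
    have hsin : 0 < Real.sin θ := Real.sin_pos_of_pos_of_lt_pi hθ0 (by linarith)
    have hsc := Real.sin_sq_add_cos_sq θ
    have hθc1 : Real.cos θ < 1 := by nlinarith
    have hφc1 : Real.cos φ < 1 := by nlinarith
    have h1s : 0 < 1 - Real.cos φ := by linarith
    set L : ℝ := -(1 / 2) * Real.logb 2 (1 - Real.cos φ) with hL
    set β : ℝ := max 1 ((2 : ℝ) ^ (L - ε)) with hβ
    have hβ1 : 1 ≤ β := le_max_left _ _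
    have hβ2 : β ^ 2 * (1 - Real.cos φ) < 1 := by
      rcases max_cases 1 ((2 : ℝ) ^ (L - ε)) with ⟨h2, -⟩ | ⟨h2, -⟩
      · rw [hβ, h2]; linarith
      · rw [hβ, h2, ← Real.rpow_natCast, ← Real.rpow_mul (by norm_num)]
        have e : (L - ε) * ((2 : ℕ) : ℝ) = -Real.logb 2 (1 - Real.cos φ) + -(2 * ε) := by
          rw [hL]; push_cast; ring
        rw [e, Real.rpow_add (by norm_num), Real.rpow_neg (by norm_num),
          Real.rpow_logb (by norm_num) (by norm_num) h1s, mul_right_comm,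
          inv_mul_cancel₀ h1s.ne', one_mul]
        exact Real.rpow_lt_one_of_one_lt_of_neg (by norm_num) (by linarith)
    obtain ⟨K, n₀, hK⟩ := exists_code h0 hφc1 hθc' hθc1 h hβ1 hβ2
    refine ⟨K, ?_⟩
    filter_upwards [eventually_ge_atTop n₀, eventually_ge_atTop 1] with n hn hn1
    have : NeZero n := ⟨by omega⟩
    obtain ⟨P, hP1, hP2, hP3, hP4⟩ := hK n hn
    have h3 : (P.card : ℝ) ≤ clusterCode n θ φ K := by
      exact_mod_cast le_clusterCode hθ0 hθ1 ⟨hP1, hP2⟩ hP3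
    refine le_trans ?_ (hP4.trans h3)
    rw [Real.rpow_mul (by norm_num), Real.rpow_natCast]
    exact pow_le_pow_left₀ (by positivity) (le_max_right _ _) n

/-- The exponent of the codes with clusters of subexponential size. -/
theorem cluster_exponent {θ φ : ℝ} (hθ0 : 0 < θ) (hθ1 : θ ≤ Real.pi / 2) (hφ0 : 0 < φ)
    (hφ1 : φ ≤ Real.pi / 2) (h : Real.cos φ ≤ Real.cos θ ^ 2) {K : ℕ → ℕ}
    (hK : Tendsto K atTop atTop)
    (hK' : Tendsto (fun n : ℕ => Real.logb 2 (K n) / n) atTop (𝓝 0)) :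
    Tendsto (fun n : ℕ => Real.logb 2 (clusterCode n θ φ (K n)) / n) atTop
      (𝓝 (-(1 / 2) * Real.logb 2 (1 - Real.cos φ))) := by
  have hpi := Real.pi_pos
  have hφc : 0 ≤ Real.cos φ := Real.cos_nonneg_of_mem_Icc ⟨by linarith, hφ1⟩
  have hθc : 0 ≤ Real.cos θ := Real.cos_nonneg_of_mem_Icc ⟨by linarith, hθ1⟩
  have hsin : 0 < Real.sin θ := Real.sin_pos_of_pos_of_lt_pi hθ0 (by linarith)
  have hsc := Real.sin_sq_add_cos_sq θ
  have hφc1 : Real.cos φ < 1 := by nlinarith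
  set L : ℝ := -(1 / 2) * Real.logb 2 (1 - Real.cos φ) with hL
  have hmain : ∀ ε : ℝ, 0 < ε → ∀ᶠ n : ℕ in atTop,
      L - ε ≤ Real.logb 2 (clusterCode n θ φ (K n)) / n ∧
      Real.logb 2 (clusterCode n θ φ (K n)) / n ≤ L + ε := by
    intro ε hε
    -- the lower bound
    obtain ⟨K₀, hlow⟩ := bounded_clusters hθ0 hθ1 hφ0 hφ1 h hε
    rw [← hL] at hlow
    -- the number `m`
    obtain ⟨m, hmc, hm⟩ := (((tendsto_L hφc1).eventually (gt_mem_nhds
      (show -(1 / 2) * Real.logb 2 (1 - Real.cos φ) < L + ε / 2 by rw [← hL]; linarith))).and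
      (eventually_ge_atTop 1)).exists
    have hm0 : (0 : ℝ) < m := by exact_mod_cast hm
    set κ : ℝ := ε / (4 * m) with hκ
    have hκ0 : 0 < κ := by positivity
    have hκm : m * κ = ε / 4 := by rw [hκ]; field_simp
    -- the upper bound through `cluster_m`, with clusters larger than `K n`
    have hup := cluster_m (κ := κ) (c := L + ε) (m := m) hφc hφc1 hκ0.le hm (by
      rw [hκm]; linarith)
    filter_upwards [hlow, hup, eventually_gt_atTop 0, hK.eventually (eventually_ge_atTop K₀),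
      hK.eventually (eventually_ge_atTop 1),
      hK'.eventually (gt_mem_nhds hκ0)] with n h1 h2 hn0 hK0 hK1 h3
    have hn0' : (0 : ℝ) < n := by exact_mod_cast hn0
    have : NeZero n := ⟨by omega⟩
    have hmono : (clusterCode n θ φ K₀ : ℝ) ≤ clusterCode n θ φ (K n) := by
      obtain ⟨P, hP, hPc, hPe⟩ := clusterCode_mem (n := n) (φ := φ) (K := K₀) hθ0 hθ1
      rw [← hPe]
      exact_mod_cast le_clusterCode hθ0 hθ1 hP (fun Q hQ hQd => (hPc Q hQ hQd).trans hK0)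
    have h1' := h1.trans hmono
    have hpos : (0 : ℝ) < clusterCode n θ φ (K n) := lt_of_lt_of_le (by positivity) h1'
    constructor
    · rw [le_div_iff₀ hn0', Real.le_logb_iff_rpow_le (by norm_num) hpos]
      exact h1'
    · rw [div_le_iff₀ hn0']
      by_contra hcon
      push Not at hcon
      rw [Real.lt_logb_iff_rpow_lt (by norm_num) hpos] at hcon
      obtain ⟨P, hP, hPc, hPe⟩ := clusterCode_mem (n := n) (φ := φ) (K := K n) hθ0 hθ1
      obtain ⟨Q, hQP, hQd, hQ⟩ := h2 P hP.1 (by rw [hPe]; exact hcon.le)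
      have h4 : (Q.card : ℝ) ≤ K n := by exact_mod_cast hPc Q hQP hQd
      have hK1' : (0 : ℝ) < K n := by exact_mod_cast hK1
      have h5 : (K n : ℝ) < (2 : ℝ) ^ (κ * n) := by
        rw [← Real.logb_lt_iff_lt_rpow (by norm_num) hK1']
        rwa [div_lt_iff₀ hn0'] at h3
      linarith
  rw [Metric.tendsto_atTop']
  intro ε hε
  obtain ⟨N, hN⟩ := eventually_atTop.1 (hmain (ε / 2) (by positivity))
  refine ⟨N, fun n hn => ?_⟩
  obtain ⟨h1, h2⟩ := hN n hn.le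
  rw [Real.dist_eq, abs_lt]
  constructor <;> linarith

end Pool.Agent.N596.KC
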