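import Pool.Agent.N621.SP.Upper

/-! Spherical codes with small clusters: the upper bound (for MP_b5f63d_co). -/

open MeasureTheory Metric Filter Set
open scoped Topology InnerProductSpace
open Pool.Agent.H818R2

namespace Pool.Agent.N596.KC

/-- every subset of `C` whose mutual inner products exceed `s` has at most `K` points -/
def Clu {E : Type*} [NormedAddCommGroup E] [InnerProductSpace ℝ E] (C : Finset E) (s : ℝ)
    (K : ℕ) : Prop :=
  ∀ Q : Finset E, Q ⊆ C → (∀ x ∈ Q, ∀ y ∈ Q, x ≠ y → s < ⟪x, y⟫_ℝ) → Q.card ≤ K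

section
variable {E : Type*} [NormedAddCommGroup E] [InnerProductSpace ℝ E]

/-- the square of the norm of a sum of unit vectors whose inner products are at most `s` -/
lemma normSq_sum_le {Q : Finset E} {s : ℝ} (h1 : ∀ x ∈ Q, ‖x‖ = 1)
    (h2 : ∀ x ∈ Q, ∀ y ∈ Q, x ≠ y → ⟪x, y⟫_ℝ ≤ s) :
    ‖∑ x ∈ Q, x‖ ^ 2 ≤ Q.card * (1 + (Q.card - 1) * s) := by
  classical
  rw [← real_inner_self_eq_norm_sq, sum_inner, ← nsmul_eq_mul, ← Finset.sum_const]
  apply Finset.sum_le_sum
  intro x hx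
  rw [inner_sum, ← Finset.add_sum_erase Q _ hx, real_inner_self_eq_norm_sq, h1 x hx, one_pow]
  have h3 : ∑ y ∈ Q.erase x, ⟪x, y⟫_ℝ ≤ ∑ _y ∈ Q.erase x, s :=
    Finset.sum_le_sum (fun y hy => h2 x hx y (Finset.mem_of_mem_erase hy)
      (Finset.ne_of_mem_erase hy).symm)
  have h4 : ((Q.erase x).card : ℝ) = Q.card - 1 := by
    rw [Finset.card_erase_of_mem hx]
    have : 1 ≤ Q.card := Finset.card_pos.2 ⟨x, hx⟩
    push_cast [this]
    ring
  rw [Finset.sum_const, nsmul_eq_mul, h4] at h3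
  linarith

lemma normSq_sum_ge {Q : Finset E} {s : ℝ} (h1 : ∀ x ∈ Q, ‖x‖ = 1)
    (h2 : ∀ x ∈ Q, ∀ y ∈ Q, x ≠ y → s ≤ ⟪x, y⟫_ℝ) :
    Q.card * (1 + (Q.card - 1) * s) ≤ ‖∑ x ∈ Q, x‖ ^ 2 := by
  classical
  rw [← real_inner_self_eq_norm_sq, sum_inner, ← nsmul_eq_mul, ← Finset.sum_const]
  apply Finset.sum_le_sum
  intro x hx
  rw [inner_sum, ← Finset.add_sum_erase Q _ hx, real_inner_self_eq_norm_sq, h1 x hx, one_pow]
  have h3 : ∑ _y ∈ Q.erase x, s ≤ ∑ y ∈ Q.erase x, ⟪x, y⟫_ℝ :=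
    Finset.sum_le_sum (fun y hy => h2 x hx y (Finset.mem_of_mem_erase hy)
      (Finset.ne_of_mem_erase hy).symm)
  have h4 : ((Q.erase x).card : ℝ) = Q.card - 1 := by
    rw [Finset.card_erase_of_mem hx]
    have : 1 ≤ Q.card := Finset.card_pos.2 ⟨x, hx⟩
    push_cast [this]
    ring
  rw [Finset.sum_const, nsmul_eq_mul, h4] at h3
  linarith

/-- A cap contains few points of a set with small clusters. -/
lemma cap_count {C : Finset E} (hC : ∀ x ∈ C, ‖x‖ = 1) {s q : ℝ} {K m : ℕ} (hs : s ≤ 1)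
    (hK : Clu C s K) (hq : 0 ≤ q) (hqm : s + (1 - s) / (m + 1) ≤ q ^ 2) {z : E} {P : Finset E}
    (hP : P ⊆ C) (hPz : ∀ x ∈ P, q * ‖z‖ < ⟪x, z⟫_ℝ) : P.card ≤ (K + m).choose m := by
  classical
  have h := Pool.Agent.TH220.NT.ramsey (fun x y : E => s < ⟪x, y⟫_ℝ)
    (fun x y h => by rw [real_inner_comm]; exact h) (K + m) K m le_rfl P
    (fun Q hQ hQ' => hK Q (hQ.trans hP) hQ')
    (fun Q hQ hQ' => by
      by_contra hcon
      push Not at hcon
      have hN : ((m : ℝ) + 1) ≤ Q.card := by exact_mod_cast hcon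
      have hm0 : (0 : ℝ) ≤ m := Nat.cast_nonneg m
      have hN0 : (0 : ℝ) < Q.card := by linarith
      have h1 := normSq_sum_le (Q := Q) (s := s) (fun x hx => hC x (hP (hQ hx)))
        (fun x hx y hy hxy => not_lt.1 (hQ' x hx y hy hxy))
      have h2 : (Q.card : ℝ) * (q * ‖z‖) < ⟪∑ x ∈ Q, x, z⟫_ℝ := by
        rw [sum_inner, ← nsmul_eq_mul, ← Finset.sum_const]
        apply Finset.sum_lt_sum_of_nonempty (Finset.card_pos.1 (by omega))
        intro x hx
        exact hPz x (hQ hx)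
      have h3 := real_inner_le_norm (∑ x ∈ Q, x) z
      have h4 : (Q.card : ℝ) * q * ‖z‖ < ‖∑ x ∈ Q, x‖ * ‖z‖ := by linarith
      have h5 : (Q.card : ℝ) * q < ‖∑ x ∈ Q, x‖ := lt_of_mul_lt_mul_right h4 (norm_nonneg z)
      have h6 : ((Q.card : ℝ) * q) ^ 2 < ‖∑ x ∈ Q, x‖ ^ 2 :=
        pow_lt_pow_left₀ h5 (by positivity) two_ne_zero
      have h7 : (Q.card : ℝ) * (Q.card * q ^ 2) < Q.card * (1 + (Q.card - 1) * s) := by
        calc (Q.card : ℝ) * (Q.card * q ^ 2) = (Q.card * q) ^ 2 := by ring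
          _ < _ := lt_of_lt_of_le h6 h1
      have h8 := lt_of_mul_lt_mul_left h7 hN0.le
      have h9 : (Q.card : ℝ) * (s + (1 - s) / (m + 1)) ≤ Q.card * q ^ 2 :=
        mul_le_mul_of_nonneg_left hqm hN0.le
      have h10 : 1 - s ≤ (Q.card : ℝ) * ((1 - s) / (m + 1)) := by
        rw [mul_div_assoc', le_div_iff₀ (by positivity)]
        nlinarith
      nlinarith)
  rw [Nat.choose_symm_add] at h
  omega

end

section
variable {E : Type*} [NormedAddCommGroup E] [InnerProductSpace ℝ E] [FiniteDimensional ℝ E]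
  [MeasurableSpace E] [BorelSpace E]

/-- the part of the unit ball below a cap -/
def cone (q : ℝ) (x : E) : Set E := {z | ‖z‖ < 1 ∧ q * ‖z‖ < ⟪x, z⟫_ℝ}

omit [FiniteDimensional ℝ E] in
lemma measurableSet_cone (q : ℝ) (x : E) : MeasurableSet (cone q x) := by
  apply MeasurableSet.inter
  · exact (isOpen_lt continuous_norm continuous_const).measurableSet
  · exact (isOpen_lt (continuous_const.mul continuous_norm)
      (continuous_const.inner continuous_id)).measurableSet

omit [FiniteDimensional ℝ E] [MeasurableSpace E] [BorelSpace E] in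
lemma cone_subset (q : ℝ) (x : E) : cone q x ⊆ ball 0 1 := fun z hz => by
  rw [mem_ball_zero_iff]; exact hz.1

lemma cap_vol {q s ε : ℝ} (hq : 0 ≤ q) (hs : 0 < s) (hε : 0 < ε) (hεs : ε < s)
    (hg : q ^ 2 + s ^ 2 + 7 * ε ≤ 1)
    (hn : 4 * √(s ^ 2 - ε ^ 2) ^ Module.finrank ℝ E ≤ s ^ Module.finrank ℝ E) {x : E}
    (hx : ‖x‖ = 1) :
    s ^ Module.finrank ℝ E / 2 * vb E ≤ volume.real (cone q x) := by
  set n := Module.finrank ℝ E with hndef
  have hq1 : q ≤ 1 := by nlinarith
  have hs1 : s ≤ 1 := by nlinarith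
  set r : ℝ := √(s ^ 2 - ε ^ 2) with hr
  have hr0 : 0 < r := Real.sqrt_pos.2 (by nlinarith)
  have hr2 : r ^ 2 = s ^ 2 - ε ^ 2 := Real.sq_sqrt (by nlinarith)
  set c : E := (q + ε) • x with hc
  have hxx : ⟪x, x⟫_ℝ = 1 := by rw [real_inner_self_eq_norm_sq, hx, one_pow]
  have hsub : ball c s ⊆ cone q x ∪ (ball (c + ε • x) r ∪ ball (c - ε • x) r) := by
    intro z hz
    set w : E := z - c with hw
    have hzw : z = c + w := by rw [hw]; abel
    have hwn : ‖w‖ < s := by rw [hw]; exact mem_ball_iff_norm.1 hz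
    have hw2 : ‖w‖ ^ 2 < s ^ 2 := pow_lt_pow_left₀ hwn (norm_nonneg w) two_ne_zero
    by_cases h1 : |⟪x, w⟫_ℝ| < ε
    · left
      obtain ⟨h2, h3⟩ := abs_lt.1 h1
      have h4 : ‖z‖ ^ 2 = (q + ε) ^ 2 + 2 * (q + ε) * ⟪x, w⟫_ℝ + ‖w‖ ^ 2 := by
        rw [hzw, norm_add_sq_real, hc, inner_smul_left, norm_smul, hx, mul_one,
          Real.norm_of_nonneg (by positivity)]
        simp only [conj_trivial]
        ring
      have h5 : ‖z‖ ^ 2 < 1 := by
        rw [h4]
        have : 2 * (q + ε) * ⟪x, w⟫_ℝ ≤ 2 * (q + ε) * ε :=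
          mul_le_mul_of_nonneg_left h3.le (by positivity)
        nlinarith
      have h6 : ‖z‖ < 1 := by
        by_contra hcon
        push Not at hcon
        nlinarith
      refine ⟨h6, ?_⟩
      have h7 : ⟪x, z⟫_ℝ = (q + ε) + ⟪x, w⟫_ℝ := by
        rw [hzw, inner_add_right, hc, inner_smul_right, hxx, mul_one]
      rw [h7]
      nlinarith [norm_nonneg z]
    · right
      push Not at h1
      rcases le_abs.1 h1 with h2 | h2
      · left
        rw [mem_ball_iff_norm]
        have h3 : z - (c + ε • x) = w - ε • x := by rw [hw]; abel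
        rw [h3]
        have h4 : ‖w - ε • x‖ ^ 2 < r ^ 2 := by
          rw [norm_sub_sq_real, inner_smul_right, norm_smul, hx, mul_one,
            Real.norm_of_nonneg hε.le, hr2, real_inner_comm]
          nlinarith
        exact lt_of_pow_lt_pow_left₀ 2 hr0.le h4
      · right
        rw [mem_ball_iff_norm]
        have h3 : z - (c - ε • x) = w + ε • x := by rw [hw]; abel
        rw [h3]
        have h4 : ‖w + ε • x‖ ^ 2 < r ^ 2 := by
          rw [norm_add_sq_real, inner_smul_right, norm_smul, hx, mul_one,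
            Real.norm_of_nonneg hε.le, hr2, real_inner_comm]
          nlinarith
        exact lt_of_pow_lt_pow_left₀ 2 hr0.le h4
  have h1 : volume.real (ball c s) ≤ volume.real (cone q x) +
      (volume.real (ball (c + ε • x) r) + volume.real (ball (c - ε • x) r)) := by
    have hf : volume (cone q x ∪ (ball (c + ε • x) r ∪ ball (c - ε • x) r)) ≠ ⊤ := by
      apply ne_of_lt
      apply (measure_union_le _ _).trans_lt
      apply ENNReal.add_lt_top.2 ⟨(measure_mono (cone_subset q x)).trans_lt measure_ball_lt_top, ?_⟩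
      exact (measure_union_le _ _).trans_lt
        (ENNReal.add_lt_top.2 ⟨measure_ball_lt_top, measure_ball_lt_top⟩)
    refine (measureReal_mono hsub hf).trans ((measureReal_union_le _ _).trans ?_)
    exact add_le_add_right (measureReal_union_le _ _) _
  rw [vol_ball _ hs, vol_ball _ hr0, vol_ball _ hr0, ← hndef] at h1
  have hv := vb_pos (E := E)
  nlinarith

/-- The upper bound: averaging over the caps. -/
lemma card_le_of_cap {C : Finset E} (hC : ∀ x ∈ C, ‖x‖ = 1) {s0 q s ε : ℝ} {K m : ℕ}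
    (hs0 : s0 ≤ 1) (hK : Clu C s0 K) (hq : 0 ≤ q) (hqm : s0 + (1 - s0) / (m + 1) ≤ q ^ 2)
    (hs : 0 < s) (hε : 0 < ε) (hεs : ε < s) (hg : q ^ 2 + s ^ 2 + 7 * ε ≤ 1)
    (hn : 4 * √(s ^ 2 - ε ^ 2) ^ Module.finrank ℝ E ≤ s ^ Module.finrank ℝ E) :
    C.card * s ^ Module.finrank ℝ E ≤ 2 * (K + m).choose m := by
  classical
  set n := Module.finrank ℝ E with hndef
  set B : ℕ := (K + m).choose m with hB
  have key : ∑ x ∈ C, ∫⁻ z, indicator (cone q x) (fun _ => (1 : ENNReal)) z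
      ≤ ∫⁻ z, indicator (ball (0 : E) 1) (fun _ => (B : ENNReal)) z := by
    rw [← lintegral_finsetSum]
    · apply lintegral_mono
      intro z
      have e1 : ∑ x ∈ C, indicator (cone q x) (fun _ => (1 : ENNReal)) z
          = ((C.filter (fun x => z ∈ cone q x)).card : ENNReal) := by
        rw [Finset.card_filter, Nat.cast_sum]
        apply Finset.sum_congr rfl
        intro x _
        by_cases h : z ∈ cone q x <;> simp [indicator, h]
      simp only [e1]
      by_cases hz : z ∈ ball (0 : E) 1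
      · rw [indicator_of_mem hz]
        have : (C.filter (fun x => z ∈ cone q x)).card ≤ B :=
          cap_count hC hs0 hK hq hqm (z := z) (Finset.filter_subset _ _)
            (fun x hx => (Finset.mem_filter.1 hx).2.2)
        exact_mod_cast this
      · have : C.filter (fun x => z ∈ cone q x) = ∅ := by
          apply Finset.filter_eq_empty_iff.2
          intro x _ hxz
          exact hz (cone_subset q x hxz)
        rw [this]; simp
    · intro x _
      exact Measurable.indicator measurable_const (measurableSet_cone q x)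
  have e2 : ∀ x ∈ C, ∫⁻ z, indicator (cone q x) (fun _ => (1 : ENNReal)) z = volume (cone q x) := by
    intro x _
    rw [lintegral_indicator_const (measurableSet_cone q x), one_mul]
  rw [Finset.sum_congr rfl e2, lintegral_indicator_const measurableSet_ball] at key
  have hlow : ∀ x ∈ C, ENNReal.ofReal (s ^ n / 2 * vb E) ≤ volume (cone q x) := by
    intro x hx
    apply ENNReal.ofReal_le_of_le_toReal
    exact cap_vol hq hs hε hεs hg hn (hC x hx)
  have h1 : (C.card : ENNReal) * ENNReal.ofReal (s ^ n / 2 * vb E) ≤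
      (B : ENNReal) * volume (ball (0 : E) 1) := by
    refine le_trans ?_ key
    rw [← nsmul_eq_mul, ← Finset.sum_const]
    exact Finset.sum_le_sum hlow
  have h2 := ENNReal.toReal_mono (ENNReal.mul_ne_top (ENNReal.natCast_ne_top B)
    measure_ball_lt_top.ne) h1
  have hv := vb_pos (E := E)
  rw [ENNReal.toReal_mul, ENNReal.toReal_mul, ENNReal.toReal_natCast, ENNReal.toReal_natCast,
    ENNReal.toReal_ofReal (by positivity)] at h2
  have h3 : (volume (ball (0 : E) 1)).toReal = vb E := rfl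
  rw [h3] at h2
  have h4 : (C.card * s ^ n) * vb E ≤ (2 * B) * vb E := by nlinarith
  exact le_of_mul_le_mul_right h4 hv

end

/-- The upper bound in high dimensions. -/
theorem upper {s0 b : ℝ} (hs0 : 0 ≤ s0) (hs1 : s0 < 1) (hb0 : 0 < b) (hb : 1 < b ^ 2 * (1 - s0)) :
    ∃ m n₀ : ℕ, ∀ n ≥ n₀, ∀ (C : Finset (EuclideanSpace ℝ (Fin n))) (K : ℕ),
      (∀ x ∈ C, ‖x‖ = 1) → Clu C s0 K → (C.card : ℝ) ≤ 2 * (K + m).choose m * b ^ n := by
  set s : ℝ := b⁻¹ with hs
  have hsp : 0 < s := inv_pos.2 hb0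
  have hs2 : s ^ 2 < 1 - s0 := by
    rw [hs, inv_pow, inv_lt_iff_one_lt_mul₀ (by positivity)]
    linarith
  set g : ℝ := 1 - s0 - s ^ 2 with hg
  have hg0 : 0 < g := by rw [hg]; linarith
  obtain ⟨m, hm⟩ := exists_nat_gt (2 / g)
  have hm1 : (1 - s0) / ((m : ℝ) + 1) ≤ g / 2 := by
    rw [div_le_iff₀ (by positivity)]
    rw [div_lt_iff₀ hg0] at hm
    nlinarith
  set q : ℝ := √(s0 + g / 2) with hq
  have hq2 : q ^ 2 = s0 + g / 2 := Real.sq_sqrt (by positivity)
  set ε : ℝ := min (g / 14) (s / 2) with hε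
  have hε0 : 0 < ε := by positivity
  have hε1 : ε ≤ g / 14 := min_le_left _ _
  have hε2 : ε ≤ s / 2 := min_le_right _ _
  set r : ℝ := √(s ^ 2 - ε ^ 2) with hr
  have hr0 : 0 < r := Real.sqrt_pos.2 (by nlinarith)
  have hrs : r < s := by
    rw [hr, Real.sqrt_lt' hsp]
    nlinarith
  have hlim : Tendsto (fun n : ℕ => (r / s) ^ n) atTop (𝓝 0) :=
    tendsto_pow_atTop_nhds_zero_of_lt_one (by positivity) ((div_lt_one hsp).2 hrs)
  obtain ⟨n₀, hn₀⟩ := eventually_atTop.1 (hlim.eventually (gt_mem_nhds (show (0 : ℝ) < 1 / 4 by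
    norm_num)))
  refine ⟨m, n₀, fun n hn C K hC hK => ?_⟩
  have h1 := hn₀ n hn
  have h2 : 4 * r ^ n ≤ s ^ n := by
    rw [div_pow, div_lt_iff₀ (by positivity)] at h1
    linarith
  have h3 := card_le_of_cap (E := EuclideanSpace ℝ (Fin n)) (m := m) (q := q) hC hs1.le hK
    (Real.sqrt_nonneg _) (by rw [hq2]; linarith) hsp hε0 (by linarith : ε < s)
    (by rw [hq2]; linarith) (by rw [finrank_euclideanSpace_fin]; exact h2)
  rw [finrank_euclideanSpace_fin] at h3
  have h4 : s ^ n * b ^ n = 1 := by rw [hs, inv_pow, inv_mul_cancel₀ (by positivity)]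
  calc (C.card : ℝ) = C.card * s ^ n * b ^ n := by rw [mul_assoc, h4, mul_one]
    _ ≤ 2 * (K + m).choose m * b ^ n := mul_le_mul_of_nonneg_right h3 (by positivity)

end Pool.Agent.N596.KC
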