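import Pool.Agent.N596.KC.Pot

/-! Large spherical codes with bounded clusters (for MP_b5f63d_co). -/

open MeasureTheory Metric Filter Set
open scoped Topology ENNReal InnerProductSpace
open Pool.Agent.H818R2

namespace Pool.Agent.N596.KC

section
variable {E : Type*} [NormedAddCommGroup E] [InnerProductSpace ℝ E] [FiniteDimensional ℝ E]
  [MeasurableSpace E] [BorelSpace E]

open Classical in
/-- the points of `P` in a cap of `P` with more than `K` points -/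
noncomputable def bad (P : Finset E) (c0 : ℝ) (K : ℕ) : Finset E :=
  P.filter (fun x => ∃ u : E, ‖u‖ = 1 ∧ c0 < ⟪x, u⟫_ℝ ∧
    K < (P.filter (fun y => c0 < ⟪y, u⟫_ℝ)).card)

open Classical in
lemma few_bad {P : Finset E} (hP : ∀ x ∈ P, ‖x‖ = 1) {c c0 t κ a : ℝ} (hc : 0 < c) (hcc : c < c0)
    (ht0 : 0 < t) (hκ : 0 < κ) (hκ1 : κ ≤ (1 - t) / 2) (hκ2 : κ ≤ (c0 - c) / 4)
    (ha : 2 ≤ a) (K : ℕ) :
    ((bad P c0 K).card : ℝ≥0∞) * volume (ball (0 : E) κ) * ENNReal.ofReal (a ^ (K + 1)) ≤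
      ∫⁻ z in shell E t, pot P c (ENNReal.ofReal (a ^ 2)) z := by
  set J := bad P c0 K with hJ
  have hJ' : ∀ x : E, ∃ u : E, x ∈ J → (‖u‖ = 1 ∧ c0 < ⟪x, u⟫_ℝ ∧
      K < (P.filter (fun y => c0 < ⟪y, u⟫_ℝ)).card) := by
    intro x
    by_cases hx : x ∈ J
    · obtain ⟨z, hz⟩ := (Finset.mem_filter.1 hx).2
      exact ⟨z, fun _ => hz⟩
    · exact ⟨0, fun h => absurd h hx⟩
  choose u hu using hJ'
  set ρ : ℝ := (1 + t) / 2 with hρ
  have hρ2 : 1 / 2 ≤ ρ := by rw [hρ]; linarith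
  -- the balls lie in the shell
  have hball : ∀ x ∈ J, ball (ρ • u x) κ ⊆ shell E t := by
    intro x hx z hz
    obtain ⟨h1, -, -⟩ := hu x hx
    rw [mem_ball_iff_norm] at hz
    have hρu : ‖ρ • u x‖ = ρ := by rw [norm_smul, h1, mul_one, Real.norm_of_nonneg (by linarith)]
    have h2 : ‖z‖ ≤ ‖z - ρ • u x‖ + ‖ρ • u x‖ := by
      calc ‖z‖ = ‖(z - ρ • u x) + ρ • u x‖ := by congr 1; abel
        _ ≤ _ := norm_add_le _ _
    have h3 : ‖ρ • u x‖ ≤ ‖z - ρ • u x‖ + ‖z‖ := by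
      calc ‖ρ • u x‖ = ‖z - (z - ρ • u x)‖ := by congr 1; abel
        _ ≤ ‖z‖ + ‖z - ρ • u x‖ := norm_sub_le _ _
        _ = _ := add_comm _ _
    constructor <;> linarith
  -- the points of the balls are near the points of the caps
  have hnear : ∀ x ∈ J, ∀ z ∈ ball (ρ • u x) κ, ∀ y ∈ P, c0 < ⟪y, u x⟫_ℝ → near c y z := by
    intro x hx z hz y hy hyu
    obtain ⟨h1, -, -⟩ := hu x hx
    rw [mem_ball_iff_norm] at hz
    have hρu : ‖ρ • u x‖ = ρ := by rw [norm_smul, h1, mul_one, Real.norm_of_nonneg (by linarith)]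
    have h2 : ‖z‖ ≤ ‖z - ρ • u x‖ + ‖ρ • u x‖ := by
      calc ‖z‖ = ‖(z - ρ • u x) + ρ • u x‖ := by congr 1; abel
        _ ≤ _ := norm_add_le _ _
    have hy1 := hP y hy
    have h3 : ⟪y, z⟫_ℝ = ρ * ⟪y, u x⟫_ℝ + ⟪y, z - ρ • u x⟫_ℝ := by
      rw [inner_sub_right, inner_smul_right]; ring
    have h4 : - ‖z - ρ • u x‖ ≤ ⟪y, z - ρ • u x⟫_ℝ := by
      have h5 := abs_real_inner_le_norm y (z - ρ • u x)
      rw [hy1, one_mul] at h5
      exact (abs_le.1 h5).1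
    have hc01 : c0 ≤ 1 := by
      have h5 := real_inner_le_norm y (u x)
      rw [hy1, h1, one_mul] at h5
      linarith
    unfold near
    rw [hy1, one_mul, h3]
    have h6 : ρ * c0 < ρ * ⟪y, u x⟫_ℝ := mul_lt_mul_of_pos_left hyu (by linarith)
    have h7 : c * ‖z‖ ≤ c * (κ + ρ) := mul_le_mul_of_nonneg_left (by linarith) hc.le
    have h8 : 1 / 2 * (c0 - c) ≤ ρ * (c0 - c) := mul_le_mul_of_nonneg_right hρ2 (by linarith)
    have h9 : c * κ ≤ 1 * κ := mul_le_mul_of_nonneg_right (by linarith) hκ.le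
    nlinarith
  have e1 : (J.card : ℝ≥0∞) * volume (ball (0 : E) κ) =
      ∫⁻ z, ∑ x ∈ J, (ball (ρ • u x) κ).indicator (fun _ => (1 : ℝ≥0∞)) z := by
    rw [lintegral_finsetSum]
    · rw [Finset.sum_congr rfl (fun x _ => by
        rw [lintegral_indicator_const measurableSet_ball, one_mul, Measure.addHaar_ball_center]),
        Finset.sum_const, nsmul_eq_mul]
    · intro x _
      exact measurable_const.indicator measurableSet_ball
  rw [e1, mul_comm, ← lintegral_const_mul _ (by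
    apply Finset.measurable_sum
    intro x _
    exact measurable_const.indicator measurableSet_ball),
    ← lintegral_indicator (measurableSet_shell t)]
  apply lintegral_mono
  intro z
  simp only
  have e2 : ∑ x ∈ J, (ball (ρ • u x) κ).indicator (fun _ => (1 : ℝ≥0∞)) z =
      ((J.filter (fun x => z ∈ ball (ρ • u x) κ)).card : ℝ≥0∞) := by
    rw [Finset.card_filter, Nat.cast_sum]
    apply Finset.sum_congr rfl
    intro x _
    by_cases h : z ∈ ball (ρ • u x) κ <;> simp [indicator, h]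
  rw [e2]
  rcases (J.filter (fun x => z ∈ ball (ρ • u x) κ)).eq_empty_or_nonempty with h0 | ⟨x, hx⟩
  · rw [h0]; simp
  · obtain ⟨hxJ, hxz⟩ := Finset.mem_filter.1 hx
    obtain ⟨h1, h2, h3⟩ := hu x hxJ
    have hm : K < mu P c z := by
      refine h3.trans_le (Finset.card_le_card ?_)
      intro y hy
      rw [Finset.mem_filter] at hy ⊢
      exact ⟨hy.1, hnear x hxJ z hxz y hy.1 hy.2⟩
    rw [indicator_of_mem (hball x hxJ hxz), pot_eq]
    have h6 : (J.filter (fun x => z ∈ ball (ρ • u x) κ)).card ≤ mu P c z := by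
      apply Finset.card_le_card
      intro y hy
      obtain ⟨hyJ, hyz⟩ := Finset.mem_filter.1 hy
      rw [Finset.mem_filter]
      refine ⟨(Finset.mem_filter.1 hyJ).1, ?_⟩
      exact hnear y hyJ z hyz y (Finset.mem_filter.1 hyJ).1 (hu y hyJ).2.1
    set m := mu P c z with hmdef
    have h7 : a ^ (K + 1) * (m : ℝ) ≤ (a ^ 2) ^ m := by
      have e3 : (m : ℝ) ≤ 2 ^ m := by exact_mod_cast Nat.lt_two_pow_self.le
      have e4 : (2 : ℝ) ^ m ≤ a ^ m := pow_le_pow_left₀ (by norm_num) ha m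
      have e5 : a ^ (K + 1) ≤ a ^ m := pow_le_pow_right₀ (by linarith) hm
      calc a ^ (K + 1) * (m : ℝ) ≤ a ^ m * a ^ m :=
            mul_le_mul e5 (e3.trans e4) (by positivity) (by positivity)
        _ = (a ^ 2) ^ m := by rw [← pow_mul, ← pow_add]; congr 1; ring
    calc ENNReal.ofReal (a ^ (K + 1)) *
          ((J.filter (fun x => z ∈ ball (ρ • u x) κ)).card : ℝ≥0∞)
        ≤ ENNReal.ofReal (a ^ (K + 1)) * (m : ℝ≥0∞) := by gcongr
      _ = ENNReal.ofReal (a ^ (K + 1) * m) := by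
          rw [ENNReal.ofReal_mul (by positivity), ENNReal.ofReal_natCast]
      _ ≤ ENNReal.ofReal ((a ^ 2) ^ m) := ENNReal.ofReal_le_ofReal h7
      _ = _ := by rw [ENNReal.ofReal_pow (by positivity)]

open Classical in
theorem piece [Nontrivial E] {c c0 t0 κ a : ℝ} {K : ℕ} (hc : 0 < c) (hcc : c < c0) (hct : c ≤ t0)
    (ht : t0 < 1) (hκ : 0 < κ) (hκ1 : κ ≤ (1 - c ^ 2) / 2) (hκ2 : κ ≤ (c0 - c) / 4)
    (ha : 2 ≤ a) (hn : (c ^ 2) ^ Module.finrank ℝ E ≤ 1 / 4)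
    (hσn : 4 * a ^ 2 * √(1 - c ^ 2) ^ Module.finrank ℝ E ≤ 1)
    (hK : 32 * a ^ 2 * √(1 - c ^ 2) ^ Module.finrank ℝ E ≤
      κ ^ Module.finrank ℝ E * a ^ (K + 1)) :
    ∃ P : Finset E, (∀ x ∈ P, ‖x‖ = 1) ∧ (∀ x ∈ P, ∀ y ∈ P, x ≠ y → ⟪x, y⟫_ℝ ≤ t0) ∧
      (∀ u : E, ‖u‖ = 1 → (P.filter (fun x => c0 < ⟪x, u⟫_ℝ)).card ≤ K) ∧
      1 / (16 * a ^ 2 * √(1 - c ^ 2) ^ Module.finrank ℝ E) ≤ P.card := by
  have hc1 : c < 1 := lt_of_le_of_lt hct ht
  have hc2 : 0 < c ^ 2 := by positivity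
  have hc21 : c ^ 2 < 1 := by nlinarith
  set n := Module.finrank ℝ E with hndef
  set σ : ℝ := √(1 - c ^ 2) with hσ
  have hσ0 : 0 < σ := Real.sqrt_pos.2 (by linarith)
  have hv := vb_pos (E := E)
  set N : ℕ := ⌊1 / (4 * a ^ 2 * σ ^ n)⌋₊ with hN
  have hNle : (N : ℝ) ≤ 1 / (4 * a ^ 2 * σ ^ n) := Nat.floor_le (by positivity)
  have hNle' : 4 * a ^ 2 * σ ^ n * N ≤ 1 := by
    rw [le_div_iff₀ (by positivity)] at hNle
    linarith
  have hNge : 1 / (8 * a ^ 2 * σ ^ n) ≤ N := by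
    have e1 : 1 / (4 * a ^ 2 * σ ^ n) < N + 1 := Nat.lt_floor_add_one _
    have e2 : 1 ≤ 1 / (4 * a ^ 2 * σ ^ n) := by
      rw [le_div_iff₀ (by positivity)]; linarith
    have e3 : 1 / (4 * a ^ 2 * σ ^ n) = 2 * (1 / (8 * a ^ 2 * σ ^ n)) := by
      field_simp
      ring
    have e4 : (1 : ℝ) ≤ N := by
      have : 1 ≤ N := by
        rw [hN]; exact Nat.le_floor (by exact_mod_cast e2)
      exact_mod_cast this
    linarith
  have ha2 : 1 ≤ a ^ 2 := by nlinarith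
  obtain ⟨P, hPN, hP1, hPs, hPi⟩ := construct (E := E) (A := a ^ 2) hc hct ht (by positivity) hn
    (N := N) (by
      have : (σ ^ n * N) * 1 ≤ (σ ^ n * N) * a ^ 2 := mul_le_mul_of_nonneg_left ha2 (by positivity)
      nlinarith) N le_rfl
  set J := bad P c0 K with hJ
  have hbad := (few_bad hP1 hc hcc hc2 hκ hκ1 hκ2 ha K).trans hPi
  rw [← hJ, Pool.Agent.N621.SP.vol_ball_enn 0 hκ, ← hndef] at hbad
  -- the factor `(1+c)^N ≤ 2`
  have h3 : (1 + 2 * a ^ 2 * σ ^ n) ^ N ≤ 2 := by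
    have e1 : 1 + 2 * a ^ 2 * σ ^ n ≤ Real.exp (2 * a ^ 2 * σ ^ n) := by
      have := Real.add_one_le_exp (2 * a ^ 2 * σ ^ n)
      linarith
    calc (1 + 2 * a ^ 2 * σ ^ n) ^ N ≤ (Real.exp (2 * a ^ 2 * σ ^ n)) ^ N :=
          pow_le_pow_left₀ (by positivity) e1 N
      _ = Real.exp (N * (2 * a ^ 2 * σ ^ n)) := by rw [← Real.exp_nat_mul]
      _ ≤ Real.exp (1 / 2) := by
          apply Real.exp_le_exp.2
          linarith
      _ ≤ 2 := by
          have h1 := Real.exp_one_lt_d9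
          have h2 : Real.exp (1 / 2) ^ 2 = Real.exp 1 := by
            rw [← Real.exp_nat_mul]; norm_num
          have h4 := Real.exp_pos (1 / 2)
          nlinarith
  have h4 : (J.card : ℝ) * (κ ^ n * a ^ (K + 1)) ≤ 2 := by
    have e1 : ENNReal.ofReal ((J.card : ℝ) * (κ ^ n * vb E) * a ^ (K + 1)) ≤
        ENNReal.ofReal (2 * vb E) := by
      rw [ENNReal.ofReal_mul (by positivity), ENNReal.ofReal_mul (by positivity),
        ENNReal.ofReal_natCast]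
      refine hbad.trans ?_
      rw [ENNReal.ofReal_mul (by norm_num : (0 : ℝ) ≤ 2)]
      gcongr
    rw [ENNReal.ofReal_le_ofReal_iff (by positivity)] at e1
    have e2 : (J.card : ℝ) * (κ ^ n * a ^ (K + 1)) * vb E ≤ 2 * vb E := by
      nlinarith
    exact le_of_mul_le_mul_right e2 hv
  have h5 : (J.card : ℝ) ≤ 1 / (16 * a ^ 2 * σ ^ n) := by
    rw [le_div_iff₀ (by positivity)]
    have e1 : (J.card : ℝ) * (32 * a ^ 2 * σ ^ n) ≤ J.card * (κ ^ n * a ^ (K + 1)) :=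
      mul_le_mul_of_nonneg_left hK (by positivity)
    linarith
  refine ⟨P \ J, fun x hx => hP1 x (Finset.mem_sdiff.1 hx).1,
    fun x hx y hy => hPs x (Finset.mem_sdiff.1 hx).1 y (Finset.mem_sdiff.1 hy).1, ?_, ?_⟩
  · intro u hu
    by_contra hcon
    push Not at hcon
    have hle : ((P \ J).filter (fun x => c0 < ⟪x, u⟫_ℝ)).card ≤
        (P.filter (fun x => c0 < ⟪x, u⟫_ℝ)).card := by
      apply Finset.card_le_card
      exact Finset.filter_subset_filter _ Finset.sdiff_subset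
    obtain ⟨x, hx⟩ := Finset.card_pos.1 (lt_of_le_of_lt (Nat.zero_le K) hcon)
    obtain ⟨hx1, hx2⟩ := Finset.mem_filter.1 hx
    obtain ⟨hxP, hxJ⟩ := Finset.mem_sdiff.1 hx1
    apply hxJ
    rw [hJ, bad, Finset.mem_filter]
    exact ⟨hxP, u, hu, hx2, by omega⟩
  · have hJP : J ⊆ P := Finset.filter_subset _ _
    have h6 : (P \ J).card + J.card = P.card := Finset.card_sdiff_add_card_eq_card hJP
    have h7 : ((P \ J).card : ℝ) + J.card = N := by rw [← hPN]; exact_mod_cast h6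
    have h8 : 1 / (8 * a ^ 2 * σ ^ n) = 1 / (16 * a ^ 2 * σ ^ n) +
        1 / (16 * a ^ 2 * σ ^ n) := by
      field_simp
      ring
    linarith

end

/-- Large codes with bounded clusters in high dimensions. -/
theorem exists_code {s0 t0 β : ℝ} (hs0 : 0 < s0) (hs1 : s0 < 1) (ht0 : 0 < t0) (ht1 : t0 < 1)
    (hst : s0 ≤ t0 ^ 2) (hβ1 : 1 ≤ β) (hβ : β ^ 2 * (1 - s0) < 1) :
    ∃ K n₀ : ℕ, ∀ n ≥ n₀, ∃ C : Finset (EuclideanSpace ℝ (Fin n)), (∀ x ∈ C, ‖x‖ = 1) ∧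
      (∀ x ∈ C, ∀ y ∈ C, x ≠ y → ⟪x, y⟫_ℝ ≤ t0) ∧ Clu C s0 K ∧ β ^ n ≤ C.card := by
  classical
  have hsq : √s0 ^ 2 = s0 := Real.sq_sqrt hs0.le
  have hs0' : 0 < √s0 := Real.sqrt_pos.2 hs0
  have hst' : √s0 ≤ t0 := by
    rw [Real.sqrt_le_left ht0.le]; exact hst
  have hβ0 : 0 < β := by linarith
  -- the number `c`
  obtain ⟨c, hc, hcs, hcβ⟩ : ∃ c : ℝ, 0 < c ∧ c < √s0 ∧ β ^ 2 * (1 - c ^ 2) < 1 := by
    have h1 : 1 - 1 / β ^ 2 < s0 := by
      have h2 : β ^ 2 * (1 - s0) / β ^ 2 < 1 / β ^ 2 :=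
        div_lt_div_of_pos_right hβ (by positivity)
      rw [mul_div_cancel_left₀ _ (by positivity)] at h2
      linarith
    obtain ⟨w, hw1, hw2⟩ := exists_between (max_lt h1 hs0)
    have hw0 : 0 < w := lt_of_le_of_lt (le_max_right _ _) hw1
    have hw3 : 1 - 1 / β ^ 2 < w := lt_of_le_of_lt (le_max_left _ _) hw1
    refine ⟨√w, Real.sqrt_pos.2 hw0, Real.sqrt_lt_sqrt hw0.le hw2, ?_⟩
    rw [Real.sq_sqrt hw0.le]
    have h2 : β ^ 2 * (1 - w) < β ^ 2 * (1 / β ^ 2) :=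
      mul_lt_mul_of_pos_left (by linarith) (by positivity)
    rwa [mul_one_div_cancel (by positivity)] at h2
  obtain ⟨c0, hcc, hc0⟩ := exists_between hcs
  have hc1 : c < 1 := by linarith
  have hc2 : 0 < c ^ 2 := by positivity
  have hc21 : c ^ 2 < 1 := by nlinarith
  set σ : ℝ := √(1 - c ^ 2) with hσ
  have hσ0 : 0 < σ := Real.sqrt_pos.2 (by linarith)
  have hσ2 : σ ^ 2 = 1 - c ^ 2 := Real.sq_sqrt (by linarith)
  have hβσ : β * σ < 1 := by
    have h1 : (β * σ) ^ 2 < 1 ^ 2 := by rw [mul_pow, hσ2, one_pow]; exact hcβ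
    exact lt_of_pow_lt_pow_left₀ 2 (by norm_num) h1
  -- `b₁ ^ 3 ≤ 1 / (β σ)`
  obtain ⟨b₁, hb₁, hb₁β⟩ : ∃ b₁ : ℝ, 1 < b₁ ∧ b₁ ^ 3 * (β * σ) ≤ 1 := by
    have h1 : Tendsto (fun j : ℕ => (1 + 1 / (j : ℝ)) ^ 3 * (β * σ)) atTop
        (𝓝 ((1 + 0) ^ 3 * (β * σ))) :=
      ((tendsto_const_nhds.add tendsto_one_div_atTop_nhds_zero_nat).pow 3).mul_const _
    rw [add_zero, one_pow, one_mul] at h1
    obtain ⟨j, h3, h4⟩ := ((h1.eventually (gt_mem_nhds hβσ)).and (eventually_ge_atTop 1)).exists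
    have hj : (0 : ℝ) < j := by exact_mod_cast h4
    exact ⟨1 + 1 / (j : ℝ), by have : 0 < 1 / (j : ℝ) := by positivity
                               linarith, h3.le⟩
  have hb₁0 : 0 < b₁ := by linarith
  set κ : ℝ := min ((1 - c ^ 2) / 2) ((c0 - c) / 4) with hκ
  have hκ0 : 0 < κ := by
    rw [hκ]; apply lt_min <;> linarith
  -- the number `j`
  obtain ⟨j, hj⟩ := exists_nat_ge ((1 - c0) / (√s0 - c0))
  have hj' : 1 - c0 ≤ j * (√s0 - c0) := by
    rwa [div_le_iff₀ (by linarith)] at hj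
  obtain ⟨K₀, hK₀⟩ := pow_unbounded_of_one_lt (32 * σ / κ) hb₁
  obtain ⟨n₁, hn₁⟩ := pow_unbounded_of_one_lt 16 hb₁
  have hlim : Tendsto (fun n : ℕ => (c ^ 2) ^ n) atTop (𝓝 0) :=
    tendsto_pow_atTop_nhds_zero_of_lt_one (by positivity) hc21
  obtain ⟨n₂, hn₂⟩ := eventually_atTop.1 (hlim.eventually (gt_mem_nhds (show (0 : ℝ) < 1 / 4 by
    norm_num)))
  refine ⟨j * (K₀ + 1), max (max n₁ n₂) 1, fun n hn => ?_⟩
  have hn1 : 1 ≤ n := le_trans (le_max_right _ _) hn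
  have hnn : max n₁ n₂ ≤ n := le_trans (le_max_left _ _) hn
  have hnn1 : n₁ ≤ n := le_trans (le_max_left _ _) hnn
  have hnn2 : n₂ ≤ n := le_trans (le_max_right _ _) hnn
  have : NeZero n := ⟨by omega⟩
  have h16 : 16 ≤ b₁ ^ n := hn₁.le.trans (pow_le_pow_right₀ hb₁.le hnn1)
  have hβn : 1 ≤ β ^ n := one_le_pow₀ hβ1
  -- `a ^ 2 σ ^ n ≤ 1 / (β b₁) ^ n`
  have hkey : (b₁ ^ n) ^ 2 * σ ^ n * (b₁ ^ n * β ^ n) ≤ 1 := by
    calc (b₁ ^ n) ^ 2 * σ ^ n * (b₁ ^ n * β ^ n) = (b₁ ^ 3 * (β * σ)) ^ n := by ring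
      _ ≤ 1 := pow_le_one₀ (by positivity) hb₁β
  obtain ⟨C, hC1, hC2, hC3, hC4⟩ := piece (E := EuclideanSpace ℝ (Fin n)) (a := b₁ ^ n)
    (K := K₀ + 1) (κ := κ) hc hcc (by linarith) ht1 hκ0 (min_le_left _ _) (min_le_right _ _)
    (by linarith)
    (by rw [finrank_euclideanSpace_fin]; exact (hn₂ n hnn2).le)
    (by
      rw [finrank_euclideanSpace_fin, ← hσ]
      have h1 : (b₁ ^ n) ^ 2 * σ ^ n * 16 ≤ (b₁ ^ n) ^ 2 * σ ^ n * (b₁ ^ n * β ^ n) := by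
        apply mul_le_mul_of_nonneg_left _ (by positivity)
        nlinarith
      nlinarith)
    (by
      rw [finrank_euclideanSpace_fin, ← hσ]
      have h1 : (b₁ ^ n) ^ (K₀ + 1 + 1) = (b₁ ^ n) ^ 2 * (b₁ ^ K₀) ^ n := by ring
      rw [h1]
      have h2 : (32 * σ) ^ n ≤ (κ * b₁ ^ K₀) ^ n := by
        apply pow_le_pow_left₀ (by positivity)
        rw [div_lt_iff₀ hκ0] at hK₀
        linarith
      have h3 : 32 * σ ^ n ≤ (32 * σ) ^ n := by
        rw [mul_pow]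
        apply mul_le_mul_of_nonneg_right _ (by positivity)
        exact le_self_pow₀ (by norm_num) (by omega)
      calc 32 * (b₁ ^ n) ^ 2 * σ ^ n
          = (b₁ ^ n) ^ 2 * (32 * σ ^ n) := by ring
        _ ≤ (b₁ ^ n) ^ 2 * (κ * b₁ ^ K₀) ^ n :=
          mul_le_mul_of_nonneg_left (h3.trans h2) (by positivity)
        _ = _ := by rw [mul_pow]; ring)
  refine ⟨C, hC1, hC2, ?_, le_trans ?_ hC4⟩
  · intro Q hQC hQd
    rcases Q.eq_empty_or_nonempty with rfl | hne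
    · simp
    obtain ⟨u, hu, hQu⟩ := near_part hs0 hs1.le (fun x hx => hC1 x (hQC hx)) hQd hj' hc0 hne
    refine hQu.trans (Nat.mul_le_mul_left j (le_trans ?_ (hC3 u hu)))
    exact Finset.card_le_card (Finset.filter_subset_filter _ hQC)
  · rw [finrank_euclideanSpace_fin, ← hσ, le_div_iff₀ (by positivity)]
    have h1 : (b₁ ^ n) ^ 2 * σ ^ n * β ^ n * 16 ≤ (b₁ ^ n) ^ 2 * σ ^ n * β ^ n * b₁ ^ n :=
      mul_le_mul_of_nonneg_left h16 (by positivity)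
    nlinarith

end Pool.Agent.N596.KC
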