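import Pool.Agent.N596.KC.Exist
import Pool.Agent.N621.SP.Few
import Pool.Agent.H818R2.Sph2

/-! Large spherical codes with few inner products (for MP_b5f63d_co). -/

open MeasureTheory Metric Filter Set
open scoped Topology ENNReal InnerProductSpace
open Pool.Agent.H818R2

namespace Pool.Agent.N596.KC

/-- the set of the inner products of distinct points of `P` -/
def ips {n : ℕ} (P : Finset (EuclideanSpace ℝ (Fin n))) : Set ℝ :=
  {d | ∃ x ∈ P, ∃ y ∈ P, x ≠ y ∧ ⟪x, y⟫_ℝ = d}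

open Classical in
lemma normalize {n : ℕ} {θ : ℝ} (hθ : Real.cos θ < 1) {P : Finset (EuclideanSpace ℝ (Fin n))}
    (h0 : ∀ x ∈ P, x ≠ 0)
    (h : ∀ x ∈ P, ∀ y ∈ P, x ≠ y → ⟪x, y⟫_ℝ ≤ Real.cos θ * (‖x‖ * ‖y‖)) :
    IsSphCode n θ (P.image (fun x => ‖x‖⁻¹ • x)) ∧
      (P.image (fun x => ‖x‖⁻¹ • x)).card = P.card := by
  have hip : ∀ x ∈ P, ∀ y ∈ P, x ≠ y → ⟪‖x‖⁻¹ • x, ‖y‖⁻¹ • y⟫_ℝ ≤ Real.cos θ := by
    intro x hx y hy hxy
    have hx0 : 0 < ‖x‖ := norm_pos_iff.2 (h0 x hx)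
    have hy0 : 0 < ‖y‖ := norm_pos_iff.2 (h0 y hy)
    rw [inner_smul_left, inner_smul_right, conj_trivial]
    have h1 := mul_le_mul_of_nonneg_left (h x hx y hy hxy)
      (show 0 ≤ ‖x‖⁻¹ * ‖y‖⁻¹ by positivity)
    calc ‖x‖⁻¹ * (‖y‖⁻¹ * ⟪x, y⟫_ℝ) = ‖x‖⁻¹ * ‖y‖⁻¹ * ⟪x, y⟫_ℝ := by ring
      _ ≤ _ := h1
      _ = Real.cos θ := by field_simp
  have hunit : ∀ x ∈ P, ‖‖x‖⁻¹ • x‖ = 1 := by
    intro x hx
    have hx0 : 0 < ‖x‖ := norm_pos_iff.2 (h0 x hx)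
    rw [norm_smul, norm_inv, norm_norm, inv_mul_cancel₀ hx0.ne']
  refine ⟨⟨?_, ?_⟩, ?_⟩
  · intro u hu
    obtain ⟨x, hx, rfl⟩ := Finset.mem_image.1 hu
    exact hunit x hx
  · intro u hu v hv huv
    obtain ⟨x, hx, rfl⟩ := Finset.mem_image.1 hu
    obtain ⟨y, hy, rfl⟩ := Finset.mem_image.1 hv
    exact hip x hx y hy (fun h => huv (by rw [h]))
  · apply Finset.card_image_of_injOn
    intro x hx y hy hxy
    by_contra hne
    have h1 := hip x hx y hy hne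
    simp only at hxy
    rw [← hxy, real_inner_self_eq_norm_sq, hunit x hx, one_pow] at h1
    linarith

/-- maximal separated sets of directions in a region -/
lemma exists_max_dir {n : ℕ} [NeZero n] {θ : ℝ} (hs : 0 < Real.sin (θ / 2)) (hθ : Real.cos θ < 1)
    {G : Set (EuclideanSpace ℝ (Fin n))} (hG : ∀ x ∈ G, x ≠ 0) :
    ∃ P : Finset (EuclideanSpace ℝ (Fin n)),
      (∀ x ∈ P, ∀ y ∈ P, x ≠ y → ⟪x, y⟫_ℝ ≤ Real.cos θ * (‖x‖ * ‖y‖)) ∧
      (P : Set (EuclideanSpace ℝ (Fin n))) ⊆ G ∧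
      ∀ p ∈ G, ∃ x ∈ P, near (Real.cos θ) x p := by
  classical
  set S : Set ℕ := {m | ∃ P : Finset (EuclideanSpace ℝ (Fin n)),
    (∀ x ∈ P, ∀ y ∈ P, x ≠ y → ⟪x, y⟫_ℝ ≤ Real.cos θ * (‖x‖ * ‖y‖)) ∧
      (P : Set (EuclideanSpace ℝ (Fin n))) ⊆ G ∧ P.card = m} with hS
  have hne : S.Nonempty := ⟨0, ∅, by simp, by simp, by simp⟩
  have hbd : BddAbove S := by
    obtain ⟨B, hB⟩ := sph_bdd (d := n) hs
    refine ⟨B, ?_⟩
    rintro m ⟨P, hP, hPG, rfl⟩
    obtain ⟨h1, h2⟩ := normalize hθ (fun x hx => hG x (hPG hx)) hP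
    rw [← h2]
    exact hB ⟨_, h1, rfl⟩
  obtain ⟨P, hP, hPG, hPc⟩ := Nat.sSup_mem hne hbd
  refine ⟨P, hP, hPG, ?_⟩
  intro p hp
  have hp0 : 0 < ‖p‖ := norm_pos_iff.2 (hG p hp)
  by_contra hcon
  push Not at hcon
  have hpP : p ∉ P := by
    intro h
    apply hcon p h
    unfold near
    rw [real_inner_self_eq_norm_mul_norm]
    have : 0 < ‖p‖ * ‖p‖ := by positivity
    nlinarith
  have hle : ∀ x ∈ P, ⟪x, p⟫_ℝ ≤ Real.cos θ * (‖x‖ * ‖p‖) := fun x hx => not_lt.1 (hcon x hx)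
  have h1 : (insert p P).card ≤ P.card := by
    rw [hPc]
    apply le_csSup hbd
    refine ⟨insert p P, ?_, ?_, rfl⟩
    · intro x hx y hy hxy
      rw [Finset.mem_insert] at hx hy
      rcases hx with rfl | hx <;> rcases hy with rfl | hy
      · exact absurd rfl hxy
      · rw [real_inner_comm, mul_comm ‖x‖]; exact hle y hy
      · exact hle x hx
      · exact hP x hx y hy hxy
    · rw [Finset.coe_insert]
      exact insert_subset hp hPG
  rw [Finset.card_insert_of_notMem hpP] at h1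
  omega

/-- Few inner products. -/
theorem exists_few {θ b : ℝ} (hθ0 : 0 < θ) (hθ1 : θ < Real.pi / 2) (hb : 1 < b) :
    ∃ C n₀ : ℕ, ∀ n ≥ n₀, ∃ P : Finset (EuclideanSpace ℝ (Fin n)), IsSphCode n θ P ∧
      (ips P).encard ≤ ((C * n : ℕ) : ℕ∞) ∧ (1 / (b * Real.sin θ)) ^ n ≤ P.card := by
  classical
  have hpi := Real.pi_pos
  set t0 : ℝ := Real.cos θ with ht0
  have ht0pos : 0 < t0 := Real.cos_pos_of_mem_Ioo ⟨by linarith, hθ1⟩
  have hsin : 0 < Real.sin θ := Real.sin_pos_of_pos_of_lt_pi hθ0 (by linarith)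
  have hsin2 : 0 < Real.sin (θ / 2) := Real.sin_pos_of_pos_of_lt_pi (by linarith) (by linarith)
  have hsc : Real.sin θ ^ 2 + t0 ^ 2 = 1 := Real.sin_sq_add_cos_sq θ
  have ht01 : t0 < 1 := by
    by_contra hcon
    push Not at hcon
    nlinarith
  -- the number `c₁`
  obtain ⟨c₁, hc₁, hc₁t, hc₁σ⟩ : ∃ c₁ : ℝ, 0 < c₁ ∧ c₁ < t0 ∧
      √(1 - c₁ ^ 2) < b * Real.sin θ := by
    have h1 : 1 - b ^ 2 * Real.sin θ ^ 2 < t0 ^ 2 := by
      have : 1 * Real.sin θ ^ 2 < b ^ 2 * Real.sin θ ^ 2 :=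
        mul_lt_mul_of_pos_right (by nlinarith) (by positivity)
      linarith
    obtain ⟨w, hw1, hw2⟩ := exists_between (max_lt h1 (show 0 < t0 ^ 2 by positivity))
    have hw0 : 0 < w := lt_of_le_of_lt (le_max_right _ _) hw1
    have hw3 : 1 - b ^ 2 * Real.sin θ ^ 2 < w := lt_of_le_of_lt (le_max_left _ _) hw1
    refine ⟨√w, Real.sqrt_pos.2 hw0, (Real.sqrt_lt' ht0pos).2 hw2, ?_⟩
    rw [Real.sq_sqrt hw0.le, Real.sqrt_lt' (by positivity), mul_pow]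
    linarith
  have hc₁1 : c₁ < 1 := by linarith
  set t : ℝ := c₁ ^ 2 with ht
  have htpos : 0 < t := by positivity
  have ht1 : t < 1 := by rw [ht]; nlinarith
  set σ : ℝ := √(1 - c₁ ^ 2) with hσ
  have hσ0 : 0 < σ := Real.sqrt_pos.2 (by rw [← ht]; linarith)
  -- the step of the lattice
  set δ : ℝ := min (t / 2) (t * (t0 - c₁) / 2) with hδ
  have hδ0 : 0 < δ := by
    apply lt_min (by positivity)
    have : 0 < t0 - c₁ := by linarith
    positivity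
  have hδ1 : δ ≤ t / 2 := min_le_left _ _
  have hδ2 : 2 * δ ≤ t * (t0 - c₁) := by
    have := min_le_right (t / 2) (t * (t0 - c₁) / 2)
    rw [← hδ] at this
    linarith
  obtain ⟨D, hD⟩ := exists_nat_gt (1 / δ ^ 2)
  have hD0 : (0 : ℝ) < D := lt_trans (by positivity) hD
  have hD1 : 1 ≤ D := by
    have : 0 < D := by exact_mod_cast hD0
    omega
  -- large dimensions
  have hratio : 1 < b * Real.sin θ / σ := (one_lt_div hσ0).2 hc₁σ
  have hlim1 : Tendsto (fun n : ℕ => (n : ℝ) ^ 1 / (b * Real.sin θ / σ) ^ n) atTop (𝓝 0) :=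
    tendsto_pow_const_div_const_pow_of_one_lt 1 hratio
  have hlim2 : Tendsto (fun n : ℕ => t ^ n) atTop (𝓝 0) :=
    tendsto_pow_atTop_nhds_zero_of_lt_one htpos.le ht1
  obtain ⟨n₀, hn₀⟩ := eventually_atTop.1 ((hlim1.eventually (gt_mem_nhds
    (show (0 : ℝ) < 1 / (4 * D * 2) by positivity))).and
    ((hlim2.eventually (gt_mem_nhds (show (0 : ℝ) < 1 / 2 by norm_num))).and
      (eventually_ge_atTop 1)))
  refine ⟨4 * D + 1, n₀, fun n hn => ?_⟩
  obtain ⟨hn1, hn2, hn3⟩ := hn₀ n hn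
  rw [pow_one] at hn1
  have hnpos : (0 : ℝ) < n := by exact_mod_cast hn3
  have : NeZero n := ⟨by omega⟩
  set c : ℝ := 2 * δ / √n with hc
  have hsqn : 0 < √(n : ℝ) := Real.sqrt_pos.2 hnpos
  have hc0 : 0 < c := by positivity
  have hcn : c * √n / 2 = δ := by rw [hc]; field_simp
  have hc2 : c ^ 2 = 4 * δ ^ 2 / n := by
    rw [hc, div_pow, Real.sq_sqrt hnpos.le]; ring
  set G : Set (EuclideanSpace ℝ (Fin n)) :=
    Pool.Agent.N621.SP.lat n c ∩ {z | t / 2 ≤ ‖z‖ ∧ ‖z‖ ≤ 2} with hG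
  have hG0 : ∀ x ∈ G, x ≠ 0 := by
    rintro x ⟨-, hx, -⟩ rfl
    rw [norm_zero] at hx
    linarith
  obtain ⟨P', hP', hP'G, hmax⟩ := exists_max_dir (n := n) hsin2 ht01 hG0
  rw [← ht0] at hP' hmax
  -- covering
  have hcov : shell (EuclideanSpace ℝ (Fin n)) (c₁ ^ 2) ⊆
      ⋃ x ∈ P', ball ((c₁ * ‖x‖⁻¹) • x) σ := by
    intro z hz
    obtain ⟨p, hp, hzp⟩ := Pool.Agent.N621.SP.lat_near hc0 z
    rw [hcn, dist_eq_norm] at hzp
    obtain ⟨hz1, hz2⟩ := hz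
    rw [← ht] at hz1
    have h1 : ‖p‖ ≤ ‖z‖ + ‖z - p‖ := by
      calc ‖p‖ = ‖z - (z - p)‖ := by congr 1; abel
        _ ≤ _ := norm_sub_le _ _
    have h2 : ‖z‖ ≤ ‖p‖ + ‖z - p‖ := by
      calc ‖z‖ = ‖p + (z - p)‖ := by congr 1; abel
        _ ≤ _ := norm_add_le _ _
    obtain ⟨x, hx, hxp⟩ := hmax p ⟨hp, by linarith, by linarith⟩
    refine mem_iUnion₂.2 ⟨x, hx, ?_⟩
    have hx0 := hG0 x (hP'G hx)
    have hxn : 0 < ‖x‖ := norm_pos_iff.2 hx0
    apply near_ball hc₁ hc₁1 ⟨hz1, hz2⟩ hx0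
    unfold near at hxp ⊢
    have h3 : ⟪z, x⟫_ℝ = ⟪x, p⟫_ℝ + ⟪x, z - p⟫_ℝ := by
      rw [← inner_add_right, real_inner_comm]; congr 1; abel
    have h4 : -(‖x‖ * ‖z - p‖) ≤ ⟪x, z - p⟫_ℝ := (abs_le.1 (abs_real_inner_le_norm _ _)).1
    have h5 : ‖x‖ * ‖z - p‖ ≤ ‖x‖ * δ := mul_le_mul_of_nonneg_left hzp hxn.le
    have h6 : ‖z‖ - δ ≤ ‖p‖ := by linarith
    have h7 : t0 * (‖x‖ * (‖z‖ - δ)) ≤ t0 * (‖x‖ * ‖p‖) := by gcongr
    have h8 : 2 * δ ≤ ‖z‖ * (t0 - c₁) := by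
      refine hδ2.trans (mul_le_mul_of_nonneg_right hz1 (by linarith))
    have h9 : ‖x‖ * (2 * δ) ≤ ‖x‖ * (‖z‖ * (t0 - c₁)) := mul_le_mul_of_nonneg_left h8 hxn.le
    have h10 : t0 * (‖x‖ * δ) ≤ 1 * (‖x‖ * δ) :=
      mul_le_mul_of_nonneg_right ht01.le (by positivity)
    rw [h3]
    nlinarith
  have hcard : 1 / 2 * (1 / σ) ^ n ≤ P'.card := by
    have h2 : volume.real (shell (EuclideanSpace ℝ (Fin n)) (c₁ ^ 2)) ≤
        ∑ x ∈ P', volume.real (ball ((c₁ * ‖x‖⁻¹) • x) σ) := by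
      refine (measureReal_mono hcov ?_).trans (measureReal_biUnion_finset_le _ _)
      refine ((measure_biUnion_lt_top (Finset.finite_toSet _) ?_)).ne
      intro i _; exact measure_ball_lt_top
    rw [vol_shell (by rw [← ht]; exact htpos) (by rw [← ht]; exact ht1),
      Finset.sum_congr rfl (fun x _ => vol_ball _ hσ0),
      Finset.sum_const, nsmul_eq_mul, ← mul_assoc, finrank_euclideanSpace_fin, ← ht] at h2
    have h3 := le_of_mul_le_mul_right h2 vb_pos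
    rw [one_div_pow, mul_one_div, div_le_iff₀ (by positivity)]
    linarith
  -- the pigeonhole principle
  have hdist0 : ∀ x ∈ P', ∃ k : ℕ, ‖x‖ = c * √k := by
    intro x hx
    obtain ⟨k, hk⟩ := Pool.Agent.N621.SP.lat_dist hc0 (hP'G hx).1
      (show (0 : EuclideanSpace ℝ (Fin n)) ∈ Pool.Agent.N621.SP.lat n c from
        fun i => ⟨0, by simp⟩)
    rw [dist_zero_right] at hk
    exact ⟨k, hk⟩
  choose! f hf using hdist0
  have hkb : ∀ (k : ℕ) (r : ℝ), c * √k ≤ r → (k : ℝ) * (4 * δ ^ 2) ≤ r ^ 2 * n := by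
    intro k r h
    have h1 : (c * √k) ^ 2 ≤ r ^ 2 := pow_le_pow_left₀ (by positivity) h 2
    rw [mul_pow, Real.sq_sqrt (Nat.cast_nonneg k), hc2, div_mul_eq_mul_div,
      div_le_iff₀ hnpos] at h1
    linarith
  have hδD : 1 ≤ δ ^ 2 * D := by
    rw [div_lt_iff₀ (by positivity)] at hD
    linarith
  have hfr : ∀ x ∈ P', f x ∈ Finset.range (D * n + 1) := by
    intro x hx
    rw [Finset.mem_range, Nat.lt_succ_iff]
    have h1 := hkb (f x) 2 (by rw [← hf x hx]; exact (hP'G hx).2.2)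
    have h2 : (f x : ℝ) * δ ^ 2 ≤ n := by linarith
    have h3 : (f x : ℝ) * 1 ≤ f x * (δ ^ 2 * D) :=
      mul_le_mul_of_nonneg_left hδD (Nat.cast_nonneg _)
    have h4 : (f x : ℝ) * δ ^ 2 * D ≤ n * D := mul_le_mul_of_nonneg_right h2 hD0.le
    have h5 : (f x : ℝ) ≤ ((D * n : ℕ) : ℝ) := by push_cast; linarith
    exact_mod_cast h5
  obtain ⟨k, hk, hkc⟩ := Finset.exists_le_card_fiber_of_nsmul_le_card_of_maps_to
    (b := (P'.card : ℝ) / ((D * n + 1 : ℕ) : ℝ)) hfr ⟨0, by simp⟩ (by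
      rw [Finset.card_range, nsmul_eq_mul, mul_div_cancel₀]
      positivity)
  set P'' := P'.filter (fun x => f x = k) with hP''
  have hP''1 : ∀ x ∈ P'', ‖x‖ = c * √k := by
    intro x hx
    obtain ⟨h1, h2⟩ := Finset.mem_filter.1 hx
    rw [hf x h1, h2]
  have hP''s : P'' ⊆ P' := Finset.filter_subset _ _
  obtain ⟨hcode, hcodec⟩ := normalize ht01 (P := P'') (fun x hx => hG0 x (hP'G (hP''s hx)))
    (fun x hx y hy hxy => hP' x (hP''s hx) y (hP''s hy) hxy)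
  refine ⟨_, hcode, ?_, ?_⟩
  · -- the inner products
    have hsub : ips (P''.image (fun x => ‖x‖⁻¹ • x)) ⊆
        (fun l : ℕ => 1 - (l : ℝ) / (2 * k)) '' (Finset.range (4 * (D * n) + 1) : Set ℕ) := by
      rintro d ⟨u, hu, v, hv, huv, rfl⟩
      obtain ⟨x, hx, rfl⟩ := Finset.mem_image.1 hu
      obtain ⟨y, hy, rfl⟩ := Finset.mem_image.1 hv
      obtain ⟨l, hl⟩ := Pool.Agent.N621.SP.lat_dist hc0 (hP'G (hP''s hx)).1 (hP'G (hP''s hy)).1
      have hxn := hP''1 x hx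
      have hyn := hP''1 y hy
      have hx0 : 0 < ‖x‖ := norm_pos_iff.2 (hG0 x (hP'G (hP''s hx)))
      have hk0 : (0 : ℝ) < k := by
        rcases Nat.eq_zero_or_pos k with h | h
        · rw [hxn, h] at hx0
          simp at hx0
        · exact_mod_cast h
      refine ⟨l, ?_, ?_⟩
      · simp only [Finset.coe_range, mem_Iio, Nat.lt_succ_iff]
        have h1 : c * √l ≤ 4 := by
          rw [← hl, dist_eq_norm]
          have h2 := norm_sub_le x y
          have h3 := (hP'G (hP''s hx)).2.2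
          have h4 := (hP'G (hP''s hy)).2.2
          linarith
        have h2 := hkb l 4 h1
        have h3 : (l : ℝ) * δ ^ 2 ≤ 4 * n := by linarith
        have h4 : (l : ℝ) * 1 ≤ l * (δ ^ 2 * D) :=
          mul_le_mul_of_nonneg_left hδD (Nat.cast_nonneg _)
        have h5 : (l : ℝ) * δ ^ 2 * D ≤ 4 * n * D := mul_le_mul_of_nonneg_right h3 hD0.le
        have h6 : (l : ℝ) ≤ ((4 * (D * n) : ℕ) : ℝ) := by push_cast; linarith
        exact_mod_cast h6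
      · simp only
        rw [inner_smul_left, inner_smul_right, conj_trivial]
        have h1 := norm_sub_sq_real x y
        rw [← dist_eq_norm, hl, hxn, hyn, mul_pow, mul_pow, Real.sq_sqrt (Nat.cast_nonneg l),
          Real.sq_sqrt (Nat.cast_nonneg k)] at h1
        have h2 : ⟪x, y⟫_ℝ = c ^ 2 * k - c ^ 2 * l / 2 := by linarith
        rw [h2, hxn, hyn]
        have h3 : (c * √k)⁻¹ * ((c * √k)⁻¹ * (c ^ 2 * k - c ^ 2 * l / 2)) =
            (c ^ 2 * k - c ^ 2 * l / 2) / (c ^ 2 * √k ^ 2) := by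
          have : 0 < √(k : ℝ) := Real.sqrt_pos.2 hk0
          field_simp
        rw [h3, Real.sq_sqrt (Nat.cast_nonneg k)]
        field_simp
    refine (Set.encard_le_encard hsub).trans ((Set.encard_image_le _ _).trans ?_)
    rw [Set.encard_coe_eq_coe_finsetCard, Finset.card_range]
    have : 4 * (D * n) + 1 ≤ (4 * D + 1) * n := by nlinarith
    exact_mod_cast this
  · rw [hcodec]
    refine le_trans ?_ hkc
    rw [le_div_iff₀ (by positivity)]
    refine le_trans ?_ hcard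
    have hpos : 0 < b * Real.sin θ := by positivity
    have h1 : (n : ℝ) * (4 * D * 2) < (b * Real.sin θ / σ) ^ n := by
      rw [div_lt_div_iff₀ (by positivity) (by positivity)] at hn1
      linarith
    have h2 : ((D * n + 1 : ℕ) : ℝ) ≤ 2 * (D * n) := by
      have h3 : D * n + 1 ≤ 2 * (D * n) := by nlinarith
      exact_mod_cast h3
    have h3 : (1 / (b * Real.sin θ)) ^ n * (b * Real.sin θ / σ) ^ n = (1 / σ) ^ n := by
      rw [← mul_pow]
      congr 1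
      field_simp
    have h4 : 0 < (1 / (b * Real.sin θ)) ^ n := by positivity
    calc (1 / (b * Real.sin θ)) ^ n * ((D * n + 1 : ℕ) : ℝ)
        ≤ (1 / (b * Real.sin θ)) ^ n * (1 / 2 * (b * Real.sin θ / σ) ^ n) := by
          apply mul_le_mul_of_nonneg_left _ h4.le
          nlinarith
      _ = 1 / 2 * (1 / σ) ^ n := by rw [← h3]; ring

end Pool.Agent.N596.KC
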