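import Pool.Agent.N596.KC.Cap
import Pool.Agent.N621.SP.Exist

/-! Spherical codes with bounded clusters: a potential function argument (for MP_b5f63d_co). -/

open MeasureTheory Metric Filter Set
open scoped Topology ENNReal InnerProductSpace
open Pool.Agent.H818R2

namespace Pool.Agent.N596.KC

section
variable {E : Type*} [NormedAddCommGroup E] [InnerProductSpace ℝ E]

/-- the angle of `x` and `z` is smaller than `arccos c` -/
def near (c : ℝ) (x z : E) : Prop := c * (‖x‖ * ‖z‖) < ⟪x, z⟫_ℝ

lemma near_smul {c r : ℝ} (hr : 0 < r) (x z : E) : near c (r • x) z ↔ near c x z := by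
  unfold near
  rw [norm_smul, Real.norm_of_nonneg hr.le, inner_smul_left, conj_trivial]
  have h : c * (r * ‖x‖ * ‖z‖) = r * (c * (‖x‖ * ‖z‖)) := by ring
  rw [h]
  exact mul_lt_mul_iff_right₀ hr

lemma near_mono {c d : ℝ} (h : c ≤ d) {x z : E} (hn : near d x z) : near c x z := by
  unfold near at hn ⊢
  refine lt_of_le_of_lt ?_ hn
  exact mul_le_mul_of_nonneg_right h (by positivity)

/-- the shell -/
def shell (E : Type*) [NormedAddCommGroup E] (t : ℝ) : Set E := {z | t ≤ ‖z‖ ∧ ‖z‖ < 1}

lemma near_ball {c : ℝ} (hc : 0 < c) (hc1 : c < 1) {y z : E} (hy : y ∈ shell E (c ^ 2)) (hz : z ≠ 0)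
    (h : near c y z) : y ∈ ball ((c * ‖z‖⁻¹) • z) √(1 - c ^ 2) := by
  obtain ⟨hy1, hy2⟩ := hy
  have hz0 : 0 < ‖z‖ := norm_pos_iff.2 hz
  rw [mem_ball_iff_norm]
  apply Real.lt_sqrt_of_sq_lt
  have hcz : ‖c‖ * ‖z‖⁻¹ * ‖z‖ = c := by
    rw [mul_assoc, inv_mul_cancel₀ hz0.ne', mul_one, Real.norm_of_nonneg hc.le]
  rw [norm_sub_sq_real, inner_smul_right, norm_smul, norm_mul, norm_inv, norm_norm, hcz, mul_assoc]
  unfold near at h
  have h1 : c * ‖y‖ < ‖z‖⁻¹ * ⟪y, z⟫_ℝ := by
    have h2 := mul_lt_mul_of_pos_left h (inv_pos.2 hz0)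
    have h3 : ‖z‖⁻¹ * (c * (‖y‖ * ‖z‖)) = c * ‖y‖ := by field_simp
    rwa [h3] at h2
  have h2 : c * (c * ‖y‖) < c * (‖z‖⁻¹ * ⟪y, z⟫_ℝ) := mul_lt_mul_of_pos_left h1 hc
  have h3 : (‖y‖ - 1) * (‖y‖ + 1 - 2 * c ^ 2) ≤ 0 := by
    apply mul_nonpos_of_nonpos_of_nonneg (by linarith)
    nlinarith
  nlinarith

open Classical in
/-- the potential `a ^ (number of points of P near z)` -/
noncomputable def pot (P : Finset E) (c : ℝ) (a : ℝ≥0∞) (z : E) : ℝ≥0∞ :=
  ∏ x ∈ P, if near c x z then a else 1

open Classical in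
/-- the number of points of `P` near `z` -/
noncomputable def mu (P : Finset E) (c : ℝ) (z : E) : ℕ := (P.filter (fun x => near c x z)).card

lemma pot_eq (P : Finset E) (c : ℝ) (a : ℝ≥0∞) (z : E) : pot P c a z = a ^ mu P c z := by
  classical
  unfold pot mu
  rw [Finset.prod_ite]
  simp

open Classical in
/-- A set with large mutual inner products has a good part in a cap. -/
lemma near_part {Q : Finset E} {s0 c0 : ℝ} (hs0 : 0 < s0) (hs1 : s0 ≤ 1) 
    (hQ1 : ∀ x ∈ Q, ‖x‖ = 1) (hQ2 : ∀ x ∈ Q, ∀ y ∈ Q, x ≠ y → s0 < ⟪x, y⟫_ℝ) {j : ℕ}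
    (hj : 1 - c0 ≤ j * (√s0 - c0)) (hc0 : c0 < √s0) (hQ : Q.Nonempty) :
    ∃ u : E, ‖u‖ = 1 ∧ Q.card ≤ j * (Q.filter (fun x => c0 < ⟪x, u⟫_ℝ)).card := by
  have hN : (1 : ℝ) ≤ Q.card := by exact_mod_cast Finset.card_pos.2 hQ
  set v : E := ∑ x ∈ Q, x with hv
  have h1 := normSq_sum_ge hQ1 (fun x hx y hy hxy => (hQ2 x hx y hy hxy).le)
  rw [← hv] at h1
  have hsq : √s0 ^ 2 = s0 := Real.sq_sqrt hs0.le
  have hs0' : 0 < √s0 := Real.sqrt_pos.2 hs0
  have hsq1 : √s0 ≤ 1 := Real.sqrt_le_one.2 hs1
  have h2 : Q.card * √s0 ≤ ‖v‖ := by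
    apply le_of_sq_le_sq _ (norm_nonneg v)
    rw [mul_pow, hsq]
    nlinarith
  have hv0 : 0 < ‖v‖ := lt_of_lt_of_le (by positivity) h2
  refine ⟨‖v‖⁻¹ • v, by rw [norm_smul, norm_inv, norm_norm, inv_mul_cancel₀ hv0.ne'], ?_⟩
  set u : E := ‖v‖⁻¹ • v with hu
  have hu1 : ‖u‖ = 1 := by rw [hu, norm_smul, norm_inv, norm_norm, inv_mul_cancel₀ hv0.ne']
  have h3 : ∑ x ∈ Q, ⟪x, u⟫_ℝ = ‖v‖ := by
    rw [← sum_inner, ← hv, hu, inner_smul_right, real_inner_self_eq_norm_sq, sq, ← mul_assoc,
      inv_mul_cancel₀ hv0.ne', one_mul]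
  have h4 : ∑ x ∈ Q, ⟪x, u⟫_ℝ ≤ (Q.filter (fun x => c0 < ⟪x, u⟫_ℝ)).card * 1 +
      (Q.filter (fun x => ¬ c0 < ⟪x, u⟫_ℝ)).card * c0 := by
    rw [← Finset.sum_filter_add_sum_filter_not Q (fun x => c0 < ⟪x, u⟫_ℝ)]
    apply add_le_add
    · rw [← nsmul_eq_mul, ← Finset.sum_const]
      apply Finset.sum_le_sum
      intro x hx
      have := real_inner_le_norm x u
      rw [hQ1 x (Finset.mem_filter.1 hx).1, hu1, mul_one] at this
      exact this
    · rw [← nsmul_eq_mul, ← Finset.sum_const]
      apply Finset.sum_le_sum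
      intro x hx
      exact not_lt.1 (Finset.mem_filter.1 hx).2
  have h5 : ((Q.filter (fun x => c0 < ⟪x, u⟫_ℝ)).card : ℝ) +
      (Q.filter (fun x => ¬ c0 < ⟪x, u⟫_ℝ)).card = Q.card := by
    exact_mod_cast Finset.card_filter_add_card_filter_not _
  set A : ℝ := ((Q.filter (fun x => c0 < ⟪x, u⟫_ℝ)).card : ℝ) with hA
  set B : ℝ := ((Q.filter (fun x => ¬ c0 < ⟪x, u⟫_ℝ)).card : ℝ) with hB
  have hA0 : 0 ≤ A := Nat.cast_nonneg _
  have h6 : Q.card * (√s0 - c0) ≤ A * (1 - c0) := by
    rw [h3] at h4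
    have : B = Q.card - A := by linarith
    rw [this] at h4
    nlinarith
  have h7 : A * (1 - c0) ≤ A * (j * (√s0 - c0)) := mul_le_mul_of_nonneg_left hj hA0
  have h8 : Q.card * (√s0 - c0) ≤ (j * A) * (√s0 - c0) := by
    refine h6.trans (h7.trans (le_of_eq ?_))
    ring
  have h9 := le_of_mul_le_mul_right h8 (by linarith)
  rw [hA] at h9
  exact_mod_cast h9

end

section
variable {E : Type*} [NormedAddCommGroup E] [InnerProductSpace ℝ E] [FiniteDimensional ℝ E]
  [MeasurableSpace E] [BorelSpace E]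

omit [FiniteDimensional ℝ E] in
lemma measurableSet_shell (t : ℝ) : MeasurableSet (shell E t) := by
  apply MeasurableSet.inter
  · exact (isClosed_le continuous_const continuous_norm).measurableSet
  · exact (isOpen_lt continuous_norm continuous_const).measurableSet

lemma measurable_pot (P : Finset E) (c : ℝ) (a : ℝ≥0∞) : Measurable (pot P c a) := by
  classical
  unfold pot
  apply Finset.measurable_prod
  intro x _
  apply Measurable.ite _ measurable_const measurable_const
  exact (isOpen_lt (continuous_const.mul (continuous_const.mul continuous_norm))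
    (continuous_const.inner continuous_id)).measurableSet

lemma vol_shell [Nontrivial E] {t : ℝ} (ht : 0 < t) (ht1 : t < 1) :
    volume.real (shell E t) = (1 - t ^ Module.finrank ℝ E) * vb E := by
  have h1 : shell E t = ball 0 1 \ ball 0 t := by
    ext z
    simp only [shell, Set.mem_sdiff, mem_ball_zero_iff, not_lt, mem_ofPred_eq]
    tauto
  rw [h1, measureReal_sdiff (ball_subset_ball ht1.le) measurableSet_ball, vol_ball _ one_pos,
    vol_ball _ ht, one_pow]
  ring

omit [FiniteDimensional ℝ E] [MeasurableSpace E] [BorelSpace E] in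
lemma shell_subset (t : ℝ) : shell E t ⊆ ball 0 1 := fun z hz => by
  rw [mem_ball_zero_iff]; exact hz.2

open Classical in
lemma exists_good {c : ℝ} (hc : 0 < c) (hc1 : c < 1) {U : Set E} (hU : U ⊆ shell E (c ^ 2))
    (hU0 : volume U ≠ 0) {g : E → ℝ≥0∞} (hg : Measurable g) :
    ∃ y ∈ U, ∫⁻ z in shell E (c ^ 2), (if near c y z then g z else 0) ≤
      volume (ball (0 : E) √(1 - c ^ 2)) * (∫⁻ z in shell E (c ^ 2), g z) / volume U := by
  have hU1 : volume U ≠ ∞ :=
    ((measure_mono (hU.trans (shell_subset _))).trans_lt measure_ball_lt_top).ne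
  have hmeas : Measurable (fun p : E × E => if near c p.1 p.2 then g p.2 else 0) := by
    apply Measurable.ite _ (hg.comp measurable_snd) measurable_const
    have h1 : Continuous (fun p : E × E => c * (‖p.1‖ * ‖p.2‖)) := by fun_prop
    have h2 : Continuous (fun p : E × E => ⟪p.1, p.2⟫_ℝ) := by fun_prop
    exact (isOpen_lt h1 h2).measurableSet
  have hf : Measurable (fun y => ∫⁻ z in shell E (c ^ 2), (if near c y z then g z else 0)) :=
    Measurable.lintegral_prod_right' (ν := volume.restrict (shell E (c ^ 2))) hmeas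
  obtain ⟨y, hy, h⟩ := exists_le_setLAverage hU0 hU1 (hf.aemeasurable (μ := volume.restrict U))
  refine ⟨y, hy, h.trans ?_⟩
  rw [setLAverage_eq]
  gcongr
  rw [lintegral_lintegral_swap hmeas.aemeasurable, ← lintegral_const_mul _ hg]
  apply setLIntegral_mono' (measurableSet_shell _)
  intro z hz
  have hz0 : z ≠ 0 := by
    rintro rfl
    have := hz.1
    rw [norm_zero] at this
    have : 0 < c ^ 2 := by positivity
    linarith
  calc ∫⁻ y in U, (if near c y z then g z else 0)
      ≤ ∫⁻ y in shell E (c ^ 2), (if near c y z then g z else 0) := lintegral_mono_set hU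
    _ ≤ ∫⁻ y in shell E (c ^ 2),
          (ball ((c * ‖z‖⁻¹) • z) √(1 - c ^ 2)).indicator (fun _ => g z) y := by
        apply setLIntegral_mono' (measurableSet_shell _)
        intro y hy
        by_cases h : near c y z
        · rw [if_pos h, indicator_of_mem (near_ball hc hc1 hy hz0 h)]
        · rw [if_neg h]; exact zero_le
    _ ≤ ∫⁻ y, (ball ((c * ‖z‖⁻¹) • z) √(1 - c ^ 2)).indicator (fun _ => g z) y :=
        setLIntegral_le_lintegral _ _
    _ = volume (ball (0 : E) √(1 - c ^ 2)) * g z := by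
        rw [lintegral_indicator_const measurableSet_ball, Measure.addHaar_ball_center, mul_comm]

lemma construct [Nontrivial E] {c t0 A : ℝ} (hc : 0 < c) (hct : c ≤ t0) (ht : t0 < 1) (hA : 0 ≤ A)
    (hn : (c ^ 2) ^ Module.finrank ℝ E ≤ 1 / 4) {N : ℕ}
    (hN : √(1 - c ^ 2) ^ Module.finrank ℝ E * N ≤ 1 / 4) :
    ∀ k ≤ N, ∃ P : Finset E, P.card = k ∧ (∀ x ∈ P, ‖x‖ = 1) ∧
      (∀ x ∈ P, ∀ y ∈ P, x ≠ y → ⟪x, y⟫_ℝ ≤ t0) ∧
      ∫⁻ z in shell E (c ^ 2), pot P c (ENNReal.ofReal A) z ≤
        ENNReal.ofReal ((1 + 2 * A * √(1 - c ^ 2) ^ Module.finrank ℝ E) ^ k) *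
          ENNReal.ofReal (vb E) := by
  classical
  have hc1 : c < 1 := lt_of_le_of_lt hct ht
  have hc2 : 0 < c ^ 2 := by positivity
  have hc21 : c ^ 2 < 1 := by nlinarith
  set n := Module.finrank ℝ E with hndef
  set σ : ℝ := √(1 - c ^ 2) with hσ
  have hσ0 : 0 < σ := Real.sqrt_pos.2 (by linarith)
  have hv := vb_pos (E := E)
  intro k
  induction k with
  | zero =>
    intro _
    refine ⟨∅, rfl, by simp, by simp, ?_⟩
    have h1 : volume (shell E (c ^ 2)) ≤ ENNReal.ofReal (vb E) := by
      refine (measure_mono (shell_subset _)).trans (le_of_eq ?_)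
      rw [Pool.Agent.N621.SP.vol_ball_enn 0 one_pos, one_pow, one_mul]
    simpa [pot] using h1
  | succ k ih =>
    intro hk
    obtain ⟨P, hPk, hP1, hPs, hPi⟩ := ih (by omega)
    set U : Set E := shell E (c ^ 2) \ ⋃ x ∈ P, ({y | near t0 x y} ∩ shell E (c ^ 2)) with hU
    have hUs : U ⊆ shell E (c ^ 2) := sdiff_subset
    have hUtop : volume U ≠ ∞ :=
      ((measure_mono (hUs.trans (shell_subset _))).trans_lt measure_ball_lt_top).ne
    have hbad : ∀ x ∈ P, ({y | near t0 x y} ∩ shell E (c ^ 2)) ⊆ ball (c • x) σ := by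
      rintro x hx y ⟨hy1, hy2⟩
      have hx1 := hP1 x hx
      have hx0 : x ≠ 0 := by
        rintro rfl
        rw [norm_zero] at hx1
        norm_num at hx1
      have h1 : near c y x := by
        have h2 := near_mono hct hy1
        unfold near at h2 ⊢
        rw [real_inner_comm, mul_comm ‖y‖]
        exact h2
      have h2 := near_ball hc hc1 hy2 hx0 h1
      rwa [hx1, inv_one, mul_one] at h2
    have hUvol : 1 / 2 * vb E ≤ volume.real U := by
      have h1 : volume.real (shell E (c ^ 2)) ≤ volume.real U +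
          ∑ x ∈ P, volume.real (ball (c • x) σ) := by
        refine le_trans ?_ (add_le_add_right (measureReal_biUnion_finset_le P
          (fun x => ball (c • x) σ)) _)
        refine le_trans (measureReal_mono ?_ ?_) (measureReal_union_le _ _)
        · intro z hz
          by_cases h : z ∈ ⋃ x ∈ P, ({y | near t0 x y} ∩ shell E (c ^ 2))
          · right
            obtain ⟨x, hx, hxz⟩ := mem_iUnion₂.1 h
            exact mem_iUnion₂.2 ⟨x, hx, hbad x hx hxz⟩
          · exact Or.inl ⟨hz, h⟩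
        · apply ne_of_lt
          refine (measure_union_le _ _).trans_lt (ENNReal.add_lt_top.2 ⟨hUtop.lt_top, ?_⟩)
          exact measure_biUnion_lt_top (Finset.finite_toSet _) (fun i _ => measure_ball_lt_top)
      rw [vol_shell hc2 hc21, Finset.sum_congr rfl (fun x _ => vol_ball (c • x) hσ0),
        Finset.sum_const, nsmul_eq_mul, hPk, ← mul_assoc] at h1
      have h2 : (k : ℝ) * σ ^ n ≤ 1 / 4 := by
        have e1 : (k : ℝ) ≤ N := by exact_mod_cast (by omega : k ≤ N)
        have e2 : (k : ℝ) * σ ^ n ≤ N * σ ^ n := mul_le_mul_of_nonneg_right e1 (by positivity)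
        linarith
      have h3 : (k : ℝ) * σ ^ n * vb E ≤ 1 / 4 * vb E := mul_le_mul_of_nonneg_right h2 hv.le
      have h4 : (c ^ 2) ^ n * vb E ≤ 1 / 4 * vb E := mul_le_mul_of_nonneg_right hn hv.le
      rw [← hndef] at h1
      nlinarith
    have hUvol' : ENNReal.ofReal (1 / 2 * vb E) ≤ volume U := by
      apply ENNReal.ofReal_le_of_le_toReal
      exact hUvol
    have hU0 : volume U ≠ 0 := by
      intro h
      rw [h, nonpos_iff_eq_zero, ENNReal.ofReal_eq_zero] at hUvol'
      linarith
    obtain ⟨y, hyU, hy⟩ := exists_good hc hc1 hUs hU0 (measurable_pot P c (ENNReal.ofReal A))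
    have hyn : 0 < ‖y‖ := lt_of_lt_of_le hc2 (hUs hyU).1
    set u : E := ‖y‖⁻¹ • y with hu
    have hu1 : ‖u‖ = 1 := by rw [hu, norm_smul, norm_inv, norm_norm, inv_mul_cancel₀ hyn.ne']
    have hyP : ∀ x ∈ P, ⟪u, x⟫_ℝ ≤ t0 := by
      intro x hx
      by_contra hcon
      push Not at hcon
      refine hyU.2 (mem_iUnion₂.2 ⟨x, hx, ?_, hUs hyU⟩)
      simp only [mem_ofPred_eq, near, hP1 x hx, one_mul]
      rw [hu, inner_smul_left, conj_trivial, real_inner_comm, lt_inv_mul_iff₀ hyn] at hcon
      linarith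
    have huu : ⟪u, u⟫_ℝ = 1 := by rw [real_inner_self_eq_norm_sq, hu1, one_pow]
    have hyP' : u ∉ P := fun h => by
      have := hyP u h
      rw [huu] at this
      linarith
    have hnear : ∀ z, near c u z ↔ near c y z := fun z => near_smul (inv_pos.2 hyn) y z
    refine ⟨insert u P, by rw [Finset.card_insert_of_notMem hyP', hPk], ?_, ?_, ?_⟩
    · intro x hx
      rcases Finset.mem_insert.1 hx with hx' | hx'
      · rw [hx']; exact hu1
      · exact hP1 x hx'
    · intro x hx z hz hxz
      rcases Finset.mem_insert.1 hx with hx' | hx' <;> rcases Finset.mem_insert.1 hz with hz' | hz'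
      · exact absurd (hx'.trans hz'.symm) hxz
      · rw [hx']; exact hyP z hz'
      · rw [hz', real_inner_comm]; exact hyP x hx'
      · exact hPs x hx' z hz' hxz
    · set I := ∫⁻ z in shell E (c ^ 2), pot P c (ENNReal.ofReal A) z with hI
      have h1 : ∫⁻ z in shell E (c ^ 2), pot (insert u P) c (ENNReal.ofReal A) z ≤
          I + ENNReal.ofReal A * ∫⁻ z in shell E (c ^ 2),
            (if near c y z then pot P c (ENNReal.ofReal A) z else 0) := by
        have hm : Measurable (fun z => if near c y z then pot P c (ENNReal.ofReal A) z else 0) := by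
          apply Measurable.ite _ (measurable_pot P c _) measurable_const
          exact (isOpen_lt (continuous_const.mul (continuous_const.mul continuous_norm))
            (continuous_const.inner continuous_id)).measurableSet
        rw [← lintegral_const_mul _ hm, ← lintegral_add_left (measurable_pot P c _)]
        apply lintegral_mono
        intro z
        simp only [pot]
        rw [Finset.prod_insert hyP']
        by_cases hz : near c y z
        · simp only [hz, (hnear z).2 hz, if_true]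
          exact le_add_self
        · have hz' : ¬ near c u z := fun h => hz ((hnear z).1 h)
          simp only [hz, hz', if_false, one_mul, mul_zero, add_zero]
          exact le_rfl
      have h2 : volume (ball (0 : E) σ) * I / volume U ≤
          ENNReal.ofReal (2 * σ ^ n) * I := by
        apply ENNReal.div_le_of_le_mul
        rw [Pool.Agent.N621.SP.vol_ball_enn 0 hσ0]
        calc ENNReal.ofReal (σ ^ n * vb E) * I
            = ENNReal.ofReal (2 * σ ^ n) * I * ENNReal.ofReal (1 / 2 * vb E) := by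
              rw [mul_right_comm, ← ENNReal.ofReal_mul (by positivity)]
              congr 2
              ring
          _ ≤ _ := by gcongr
      have h3 : ∫⁻ z in shell E (c ^ 2), pot (insert u P) c (ENNReal.ofReal A) z ≤
          I + ENNReal.ofReal A * (ENNReal.ofReal (2 * σ ^ n) * I) := by
        refine h1.trans ?_
        gcongr
        exact hy.trans h2
      refine h3.trans ?_
      calc I + ENNReal.ofReal A * (ENNReal.ofReal (2 * σ ^ n) * I)
          = ENNReal.ofReal (1 + 2 * A * σ ^ n) * I := by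
            rw [ENNReal.ofReal_add (by norm_num) (by positivity), ENNReal.ofReal_one, add_mul,
              one_mul, ← mul_assoc, ← ENNReal.ofReal_mul hA]
            congr 3
            ring
        _ ≤ ENNReal.ofReal (1 + 2 * A * σ ^ n) *
            (ENNReal.ofReal ((1 + 2 * A * σ ^ n) ^ k) * ENNReal.ofReal (vb E)) := by
            gcongr
        _ = _ := by
            rw [← mul_assoc, ← ENNReal.ofReal_mul (by positivity), pow_succ' _ k]

end

end Pool.Agent.N596.KC
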